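import Pool.Agent.H64.HP.Engel
import Pool.Agent.H64.BC.Cen

/-!
Torsion-free barely transitive groups: no nontrivial locally normal subgroup is locally nilpotent.
-/

set_option autoImplicit false

open scoped commutatorElement

namespace H64.HP

open H47.BT (Bare)
open H64.BC (cj mem_cj cz_bot)
open H64.BA (D D_mono exists_fg exists_open)
open MulAction

/-- the subgroup generated by the conjugates of `a` under the elements of `T` -/
def cc {G : Type*} [Group G] (a : G) (T : Set G) : Subgroup G :=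
  Subgroup.closure ((fun t => t * a * t⁻¹) '' T)

theorem cc_mono {G : Type*} [Group G] (a : G) {T T' : Set G} (h : T ⊆ T') : cc a T ≤ cc a T' :=
  Subgroup.closure_mono (Set.image_mono h)

theorem exists_cc1 {G : Type*} [Group G] (hs : ∀ N : Subgroup G, N.Normal → N = ⊥ ∨ N = ⊤) {a : G}
    (ha : a ≠ 1) (g : G) : ∃ T : Set G, T.Finite ∧ g ∈ cc a T := by
  let R : Subgroup G :=
    { carrier := {z | ∃ T : Set G, T.Finite ∧ z ∈ cc a T}
      one_mem' := ⟨∅, Set.finite_empty, one_mem _⟩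
      mul_mem' := by
        rintro u v ⟨F, hF, hu⟩ ⟨F', hF', hv⟩
        exact ⟨F ∪ F', hF.union hF', mul_mem (cc_mono a Set.subset_union_left hu)
          (cc_mono a Set.subset_union_right hv)⟩
      inv_mem' := by
        rintro u ⟨F, hF, hu⟩
        exact ⟨F, hF, inv_mem hu⟩ }
  have hRn : R.Normal := by
    refine ⟨fun n hn k => ?_⟩
    obtain ⟨F, hF, hn⟩ := hn
    refine ⟨(fun t => k * t) '' F, hF.image _, ?_⟩
    refine conj_closure ?_ n hn
    rintro _ ⟨t, ht, rfl⟩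
    refine Subgroup.subset_closure ⟨k * t, ⟨t, ht, rfl⟩, ?_⟩
    group
  have hcR : a ∈ R := by
    refine ⟨{1}, Set.finite_singleton _, Subgroup.subset_closure ⟨1, rfl, ?_⟩⟩
    group
  rcases hs R hRn with h | h
  · rw [h] at hcR
    exact absurd (Subgroup.mem_bot.1 hcR) ha
  · have : g ∈ R := by rw [h]; trivial
    exact this

theorem exists_cc {G : Type*} [Group G] (hs : ∀ N : Subgroup G, N.Normal → N = ⊥ ∨ N = ⊤) {a : G}
    (ha : a ≠ 1) {F : Subgroup G} (hF : F.FG) : ∃ T : Set G, T.Finite ∧ F ≤ cc a T := by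
  obtain ⟨S, hS⟩ := hF
  choose T hT hgT using exists_cc1 hs ha
  refine ⟨⋃ s ∈ S, T s, Set.Finite.biUnion S.finite_toSet fun s _ => hT s, ?_⟩
  rw [← hS, Subgroup.closure_le]
  intro s hs'
  exact cc_mono a (Set.subset_biUnion_of_mem (u := T) hs') (hgT s)

theorem nil_center {G : Type*} [Group G] {F : Subgroup G} (hF : Nil F) (hne : F ≠ ⊥) :
    ∃ z ∈ F, z ≠ 1 ∧ ∀ f ∈ F, f * z = z * f := by
  classical
  have hF' : ∃ n, F.lowerCentralSeries n = ⊥ := hF
  have h1 := Nat.find_spec hF'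
  rcases hn : Nat.find hF' with _ | m
  · rw [hn] at h1
    exact absurd h1 hne
  · rw [hn] at h1
    have h2 : F.lowerCentralSeries m ≠ ⊥ := Nat.find_min hF' (by omega)
    obtain ⟨z, hz, hz1⟩ := H47.BT.exists_ne_one h2
    have hzF : z ∈ F := by
      have : F.lowerCentralSeries m ≤ F.lowerCentralSeries 0 :=
        Subgroup.lowerCentralSeries_antitone F (Nat.zero_le _)
      exact this hz
    refine ⟨z, hzF, hz1, fun f hf => ?_⟩
    rw [Subgroup.lowerCentralSeries_succ, Subgroup.commutator_eq_bot_iff_le_centralizer] at h1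
    exact Subgroup.mem_centralizer_iff.1 (h1 hz) f hf

theorem LocNil.cj {G : Type*} [Group G] {M : Subgroup G} (h : LocNil M) (t : G) :
    LocNil (H64.BC.cj t M) := by
  intro F hF hfg
  have h1 : H64.BC.cj t⁻¹ F ≤ M := by
    have := H64.BC.cj_mono t⁻¹ hF
    rwa [H64.BC.cj_inv_cj] at this
  have h2 : (H64.BC.cj t⁻¹ F).FG := by
    obtain ⟨S, hS, hSf⟩ := (Subgroup.fg_iff F).1 hfg
    refine (Subgroup.fg_iff _).2 ⟨_, ?_, hSf.image (MulAut.conj t⁻¹).toMonoidHom⟩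
    rw [← MonoidHom.map_closure, hS]
    rfl
  obtain ⟨n, hn⟩ := h _ h1 h2
  refine ⟨n, ?_⟩
  have h3 : F = (H64.BC.cj t⁻¹ F).map (MulAut.conj t).toMonoidHom := (H64.BC.cj_cj_inv t F).symm
  rw [h3, ← Subgroup.map_lowerCentralSeries, hn, Subgroup.map_bot]

theorem exists_pow {G : Type*} [Group G] {Y P : Subgroup G} (hY : Y.relIndex P ≠ 0) {a : G}
    (ha : a ∈ P) : ∃ n : ℕ, n ≠ 0 ∧ a ^ n ∈ Y := by
  obtain ⟨n, hn, _, han⟩ := Subgroup.exists_pow_mem_of_relIndex_ne_zero hY ha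
  exact ⟨n, hn.ne', han.1⟩

variable {G Ω : Type*} [Group G] [MulAction G Ω]

/-- **Finitely generated groups.** -/
theorem fg_case (h : Bare G Ω) (hfg : Group.FG G) (x : Ω) {M : Subgroup G} (hM : M ≠ ⊥)
    {Y : Subgroup G} (hY : Y.relIndex (stabilizer G x) ≠ 0)
    (hYM : ∀ y ∈ Y, ∀ m ∈ M, y * m * y⁻¹ ∈ M) (hLN : LocNil M) : False := by
  classical
  obtain ⟨a, haM, ha1⟩ := H47.BT.exists_ne_one hM
  have hctr := h.ctr
  have htop : (⊤ : Subgroup G).FG := Group.fg_def.1 hfg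
  have hMt : M ≠ ⊤ := by
    rintro rfl
    obtain ⟨z, _, hz1, hz⟩ := nil_center (hLN ⊤ le_rfl htop) hM
    apply hz1
    have : z ∈ Subgroup.center G := Subgroup.mem_center_iff.2 fun f => hz f trivial
    rw [hctr] at this
    exact Subgroup.mem_bot.1 this
  obtain ⟨T, hT, hTt⟩ := exists_cc h.simple ha1 htop
  have := hT.to_subtype
  let Y0 : Subgroup G := ⨅ t : T, cj (t : G) Y
  have hY0 : Y0.relIndex (stabilizer G x) ≠ 0 :=
    Subgroup.relIndex_iInf_ne_zero fun t => h.conj x (t : G) hY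
  have hY0n : ∀ t : T, ∀ y ∈ Y0, ∀ e ∈ cj (t : G) M, y * e * y⁻¹ ∈ cj (t : G) M := by
    intro t y hy e he
    have hy' : y ∈ cj (t : G) Y := (iInf_le _ t : Y0 ≤ cj (t : G) Y) hy
    rw [mem_cj] at hy' he ⊢
    have h1 := hYM _ hy' _ he
    have e1 : (t : G)⁻¹ * y * t * ((t : G)⁻¹ * e * t) * ((t : G)⁻¹ * y * t)⁻¹ =
      (t : G)⁻¹ * (y * e * y⁻¹) * t := by group
    rwa [e1] at h1
  let E : T → Subgroup G := fun t => cj (t : G) M ⊓ Y0
  have hR : LocNil (⨆ t, E t) := by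
    refine plotkin_sup E (Y := Y0) (fun t => inf_le_right) ?_ fun t =>
      (LocNil.cj hLN (t : G)).mono inf_le_left
    intro t y hy e he
    exact ⟨hY0n t y hy e he.1, mul_mem (mul_mem hy he.2) (Subgroup.inv_mem _ hy)⟩
  let b : T → G := fun t => (t : G) * a * (t : G)⁻¹
  have hbM : ∀ t : T, b t ∈ cj (t : G) M := by
    intro t
    rw [mem_cj]
    have : (t : G)⁻¹ * ((t : G) * a * (t : G)⁻¹) * t = a := by group
    rw [this]
    exact haM
  have hpow : ∀ t : T, ∃ m : ℕ, m ≠ 0 ∧ b t ^ m ∈ Y0 := by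
    intro t
    have hct : cj (t : G) M ≠ ⊤ := by
      intro hc
      apply hMt
      have := congrArg (H64.BC.cj (t : G)⁻¹) hc
      rwa [H64.BC.cj_inv_cj, H64.BC.cj_top] at this
    exact exists_pow (Subgroup.relIndex_ne_zero_trans hY0 (h.rel hct x)) (hbM t)
  choose m hm hbm using hpow
  let F : Subgroup G := Subgroup.closure (Set.range fun t => b t ^ m t)
  have hFR : F ≤ ⨆ t, E t := by
    rw [Subgroup.closure_le]
    rintro _ ⟨t, rfl⟩
    exact (le_iSup E t : E t ≤ _) ⟨pow_mem (hbM t) _, hbm t⟩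
  have hFY : F ≤ Y0 := by
    rw [Subgroup.closure_le]
    rintro _ ⟨t, rfl⟩
    exact hbm t
  have hFfg : F.FG := (Subgroup.fg_iff _).2 ⟨_, rfl, Set.finite_range _⟩
  have hFne : F ≠ ⊥ := by
    intro hc
    obtain ⟨g, hg⟩ := h.exists_ne
    have hcc : cc a T ≤ ⊥ := by
      unfold cc
      rw [Subgroup.closure_le]
      rintro _ ⟨t, ht, rfl⟩
      have h1 : b ⟨t, ht⟩ ^ m ⟨t, ht⟩ ∈ F := Subgroup.subset_closure ⟨⟨t, ht⟩, rfl⟩
      rw [hc] at h1
      have h2 := h.pw (hm ⟨t, ht⟩) (Subgroup.mem_bot.1 h1)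
      exact Subgroup.mem_bot.2 h2
    exact hg (Subgroup.mem_bot.1 (hcc (hTt (Subgroup.mem_top g))))
  obtain ⟨z, hzF, hz1, hz⟩ := nil_center (hR F hFR hFfg) hFne
  have hbz : ∀ t : T, Commute (b t) z := by
    intro t
    have h1 : ⁅b t, z⁆ ∈ cj (t : G) M := comm_memR (hY0n t z (hFY hzF)) (hbM t)
    obtain ⟨N, hN⟩ := en_one (LocNil.cj hLN (t : G)) (hbM t) h1
    refine engel0 (n := m t) ?_ (N := N) hN fun k hk => h.pw (hm t) hk
    exact hz _ (Subgroup.subset_closure ⟨t, rfl⟩)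
  have hcent : cc a T ≤ Subgroup.centralizer {z} := by
    unfold cc
    rw [Subgroup.closure_le]
    rintro _ ⟨t, ht, rfl⟩
    rw [SetLike.mem_coe, Subgroup.mem_centralizer_singleton_iff]
    exact (hbz ⟨t, ht⟩).eq
  apply hz1
  have : z ∈ Subgroup.center G := by
    rw [Subgroup.mem_center_iff]
    intro g
    have := hcent (hTt (Subgroup.mem_top g))
    rw [Subgroup.mem_centralizer_singleton_iff] at this
    exact this
  rw [hctr] at this
  exact Subgroup.mem_bot.1 this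

theorem exists_core {G : Type*} [Group G] {Y K : Subgroup G} (h : Y.relIndex K ≠ 0) :
    ∃ Y1 : Subgroup G, Y1.relIndex K ≠ 0 ∧ Y1 ≤ Y ∧ Y1 ≤ K ∧
      ∀ k ∈ K, ∀ y ∈ Y1, k * y * k⁻¹ ∈ Y1 := by
  have hYK : (Y.subgroupOf K).FiniteIndex := ⟨h⟩
  refine ⟨((Y.subgroupOf K).normalCore).map K.subtype, ?_, ?_, ?_, ?_⟩
  · have e : (((Y.subgroupOf K).normalCore).map K.subtype).subgroupOf K =
        (Y.subgroupOf K).normalCore := by
      ext z
      rw [Subgroup.mem_subgroupOf]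
      constructor
      · rintro ⟨w, hw, hw'⟩
        have : w = z := Subtype.ext hw'
        rwa [this] at hw
      · intro hz
        exact ⟨z, hz, rfl⟩
    unfold Subgroup.relIndex
    rw [e]
    exact Subgroup.FiniteIndex.index_ne_zero
  · rintro _ ⟨w, hw, rfl⟩
    exact (Y.subgroupOf K).normalCore_le hw
  · rintro _ ⟨w, hw, rfl⟩
    exact w.2
  · rintro k hk _ ⟨w, hw, rfl⟩
    exact ⟨⟨k, hk⟩ * w * (⟨k, hk⟩ : K)⁻¹,
      (inferInstance : ((Y.subgroupOf K).normalCore).Normal).conj_mem w hw ⟨k, hk⟩, rfl⟩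

theorem exists_rad {G : Type*} [Group G] {Y1 K M : Subgroup G}
    (hY1c : ∀ k ∈ K, ∀ y ∈ Y1, k * y * k⁻¹ ∈ Y1)
    (hMn : ∀ t ∈ K, ∀ y ∈ Y1, ∀ e ∈ cj t M, y * e * y⁻¹ ∈ cj t M) (hLN : LocNil M) :
    ∃ R : Subgroup G, LocNil R ∧ R ≤ Y1 ∧ (∀ k ∈ K, ∀ r ∈ R, k * r * k⁻¹ ∈ R) ∧
      ∀ k ∈ K, ∀ s, s ∈ cj k M → s ∈ Y1 → s ∈ R := by
  refine ⟨⨆ k : K, cj (k : G) M ⊓ Y1, ?_, iSup_le fun k => inf_le_right, ?_, ?_⟩
  · refine plotkin_sup (fun k : K => cj (k : G) M ⊓ Y1) (Y := Y1) (fun t => inf_le_right) ?_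
      fun t => (LocNil.cj hLN (t : G)).mono inf_le_left
    intro t y hy e he
    exact ⟨hMn t t.2 y hy e he.1, mul_mem (mul_mem hy he.2) (Subgroup.inv_mem _ hy)⟩
  · intro k hk r hr
    rw [Subgroup.iSup_eq_closure] at hr
    refine conj_closure ?_ r hr
    intro s hs
    obtain ⟨t, ht⟩ := Set.mem_iUnion.1 hs
    obtain ⟨hs1, hs2⟩ := Subgroup.mem_inf.1 ht
    refine Subgroup.mem_iSup_of_mem (⟨k * t, mul_mem hk t.2⟩ : K)
      (Subgroup.mem_inf.2 ⟨?_, hY1c k hk s hs2⟩)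
    rw [mem_cj] at hs1 ⊢
    have e : (k * (t : G))⁻¹ * (k * s * k⁻¹) * (k * (t : G)) = (t : G)⁻¹ * s * t := by group
    exact e ▸ hs1
  · intro k hk s h1 h2
    exact Subgroup.mem_iSup_of_mem (⟨k, hk⟩ : K) (Subgroup.mem_inf.2 ⟨h1, h2⟩)

/-- **Groups which are not finitely generated.** -/
theorem inf_case (h : Bare G Ω) (hfg : ¬ Group.FG G) (x : Ω) {M : Subgroup G} (hM : M ≠ ⊥)
    {Y : Subgroup G} (hY : Y.relIndex (stabilizer G x) ≠ 0)
    (hYM : ∀ y ∈ Y, ∀ m ∈ M, y * m * y⁻¹ ∈ M) (hLN : LocNil M) : False := by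
  classical
  obtain ⟨a, haM, ha1⟩ := H47.BT.exists_ne_one hM
  obtain ⟨g, hg⟩ : ∃ g : G, ⁅g, a⁆ ≠ 1 := by
    by_contra hc
    push Not at hc
    apply ha1
    have h1 : a ∈ Subgroup.center G := by
      rw [Subgroup.mem_center_iff]
      intro g
      exact commutatorElement_eq_one_iff_mul_comm.1 (hc g)
    rw [h.ctr] at h1
    exact Subgroup.mem_bot.1 h1
  obtain ⟨F, hF, hgF⟩ := exists_fg h.simple hg g
  have hF' : (F ⊔ Subgroup.closure {a, g}).FG := hF.sup ⟨{a, g}, by simp⟩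
  obtain ⟨T, hT, hFT⟩ := exists_cc h.simple ha1 hF'
  have := hT.to_subtype
  have hF2 : ((F ⊔ Subgroup.closure {a, g}) ⊔ Subgroup.closure T).FG :=
    hF'.sup ((Subgroup.fg_iff _).2 ⟨T, rfl, hT⟩)
  have hFt : (F ⊔ Subgroup.closure {a, g}) ⊔ Subgroup.closure T ≠ ⊤ := by
    intro hc
    rw [hc] at hF2
    exact hfg (Group.fg_def.2 hF2)
  obtain ⟨K, hK, hFK, hKo⟩ := exists_open h x hFt
  have haF : a ∈ F ⊔ Subgroup.closure {a, g} :=
    (le_sup_right : Subgroup.closure {a, g} ≤ F ⊔ Subgroup.closure {a, g})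
      (Subgroup.subset_closure (Or.inl rfl))
  have hgF' : g ∈ F ⊔ Subgroup.closure {a, g} :=
    (le_sup_right : Subgroup.closure {a, g} ≤ F ⊔ Subgroup.closure {a, g})
      (Subgroup.subset_closure (Or.inr rfl))
  have haK : a ∈ K := hFK ((le_sup_left : F ⊔ Subgroup.closure {a, g} ≤
    (F ⊔ Subgroup.closure {a, g}) ⊔ Subgroup.closure T) haF)
  have hTK : ∀ t ∈ T, t ∈ K := fun t ht => hFK ((le_sup_right : Subgroup.closure T ≤
    (F ⊔ Subgroup.closure {a, g}) ⊔ Subgroup.closure T) (Subgroup.subset_closure ht))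
  -- the normal open subgroup of `K`
  obtain ⟨Y1, hY1K, hY1Y, hY1k, hY1c⟩ := exists_core (Subgroup.relIndex_ne_zero_trans hY (h.rel hK x))
  have hMn : ∀ t ∈ K, ∀ y ∈ Y1, ∀ e ∈ cj t M, y * e * y⁻¹ ∈ cj t M := by
    intro t ht y hy e he
    rw [mem_cj] at he ⊢
    have h2 := hY1c t⁻¹ (inv_mem ht) y hy
    rw [inv_inv] at h2
    have h1 := hYM _ (hY1Y h2) _ he
    have e1 : t⁻¹ * y * t * (t⁻¹ * e * t) * (t⁻¹ * y * t)⁻¹ = t⁻¹ * (y * e * y⁻¹) * t := by group
    rwa [e1] at h1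
  obtain ⟨R, hR, hRY, hKR, hER⟩ := exists_rad hY1c hMn hLN
  have hRne : R ≠ ⊥ := by
    intro hc
    obtain ⟨n, hn, han⟩ := exists_pow hY1K haK
    have h1 : a ^ n ∈ R := by
      refine hER 1 (one_mem _) _ ?_ han
      rw [H64.BC.cj_one]
      exact pow_mem haM n
    rw [hc] at h1
    exact ha1 (h.pw hn (Subgroup.mem_bot.1 h1))
  have hcz := cz_bot h x hRne hKo hKR
  -- the conjugates of `a`
  let b : T → G := fun t => (t : G) * a * (t : G)⁻¹
  have hbM : ∀ t : T, b t ∈ cj (t : G) M := by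
    intro t
    rw [mem_cj]
    have : (t : G)⁻¹ * ((t : G) * a * (t : G)⁻¹) * t = a := by group
    rw [this]
    exact haM
  have hbK : ∀ t : T, b t ∈ K := fun t =>
    mul_mem (mul_mem (hTK t t.2) haK) (inv_mem (hTK t t.2))
  choose m hm hbm using fun t : T => exists_pow hY1K (hbK t)
  have hgc : g ∈ Subgroup.centralizer (R : Set G) := by
    rw [Subgroup.mem_centralizer_iff]
    intro y hy
    have hy : y ∈ R := hy
    have hyK : y ∈ K := hY1k (hRY hy)
    let S : Set G := Set.range b ∪ {y}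
    let Γ : Subgroup G := Subgroup.closure S
    have hΓK : Γ ≤ K := by
      rw [Subgroup.closure_le]
      rintro _ (⟨t, rfl⟩ | hz)
      · exact hbK t
      · rw [Set.mem_singleton_iff.1 hz]
        exact hyK
    have hccΓ : cc a T ≤ Γ := by
      unfold cc
      rw [Subgroup.closure_le]
      rintro _ ⟨t, ht, rfl⟩
      exact Subgroup.subset_closure (Or.inl ⟨⟨t, ht⟩, rfl⟩)
    have hFΓ : F ≤ Γ := (le_sup_left.trans hFT).trans hccΓ
    have haΓ : a ∈ Γ := hccΓ (hFT haF)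
    have hgΓ : g ∈ Γ := hccΓ (hFT hgF')
    have hyΓ : y ∈ Γ := Subgroup.subset_closure (Or.inr rfl)
    let b' : T → Γ := fun t => ⟨b t, Subgroup.subset_closure (Or.inl ⟨t, rfl⟩)⟩
    have hgen : Subgroup.closure (Set.range b' ∪ {(⟨y, hyΓ⟩ : Γ)}) = ⊤ := by
      have h1 : Set.range b' ∪ {(⟨y, hyΓ⟩ : Γ)} = ((↑) : Γ → G) ⁻¹' S := by
        ext z
        constructor
        · rintro (⟨t, rfl⟩ | hz)
          · exact Or.inl ⟨t, rfl⟩
          · rw [Set.mem_singleton_iff.1 hz]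
            exact Or.inr rfl
        · rintro (⟨t, ht⟩ | hz)
          · exact Or.inl ⟨t, Subtype.ext ht⟩
          · exact Or.inr (Subtype.ext hz)
      rw [h1]
      exact Subgroup.closure_closure_coe_preimage
    obtain ⟨c, hc⟩ := claim (fun z n hn hz => h.pw hn hz) hR Γ
      (fun k hk => hKR k (hΓK hk)) b' (fun t : T => cj (t : G) M)
      (fun t => LocNil.cj hLN (t : G)) m hm hbM
      (fun t r hr => hMn t (hTK t t.2) r (hRY hr))
      (fun t => hER t (hTK t t.2) _ (pow_mem (hbM t) _) (hbm t))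
      ⟨y, hyΓ⟩ hy hgen
    -- the normal closure of the commutator
    let a' : Γ := ⟨a, haΓ⟩
    let g' : Γ := ⟨g, hgΓ⟩
    let N : Subgroup Γ := Subgroup.normalClosure {⁅g', a'⁆}
    have hgN : g' ∈ N := by
      have h1 : D ⁅g, a⁆ F ≤ N.map Γ.subtype := by
        unfold D
        rw [Subgroup.closure_le]
        rintro y ⟨f, hf, rfl⟩
        refine ⟨⟨f, hFΓ hf⟩ * ⁅g', a'⁆ * (⟨f, hFΓ hf⟩ : Γ)⁻¹, ?_, rfl⟩
        exact Subgroup.normalClosure_normal.conj_mem _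
          (Subgroup.subset_normalClosure (Set.mem_singleton _)) _
      obtain ⟨z, hz, hz'⟩ := h1 hgF
      have : z = g' := Subtype.ext hz'
      rwa [this] at hz
    have hN : N ≤ ⁅N, (⊤ : Subgroup Γ)⁆ := by
      refine Subgroup.normalClosure_le_normal ?_
      rw [Set.singleton_subset_iff]
      exact Subgroup.commutator_mem_commutator hgN (Subgroup.mem_top _)
    have hch := H64.BA.chain (Subgroup.upperCentralSeries Γ) (fun j => inferInstance)
      (Subgroup.upperCentralSeries_zero _) ⊤ N c (fun j _ => by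
        rw [Subgroup.commutator_le]
        intro u hu v _
        exact Subgroup.mem_upperCentralSeries_succ_iff.1 hu v) hN c c le_rfl
    rw [Nat.sub_self, Subgroup.upperCentralSeries_zero] at hch
    have h5 : ⁅g', (⟨y, hyΓ⟩ : Γ)⁆ ∈ (⊥ : Subgroup Γ) :=
      hch (Subgroup.commutator_mem_commutator hgN hc)
    have h6 := commutatorElement_eq_one_iff_mul_comm.1 (Subgroup.mem_bot.1 h5)
    exact (congrArg Subtype.val h6).symm
  rw [hcz] at hgc
  apply hg
  rw [Subgroup.mem_bot.1 hgc, commutatorElement_one_left]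

/-- **No nontrivial locally normal subgroup of a torsion-free barely transitive group is locally
nilpotent.** -/
theorem not_locNil (h : Bare G Ω) (x : Ω) {M : Subgroup G} (hM : M ≠ ⊥)
    {Y : Subgroup G} (hY : Y.relIndex (stabilizer G x) ≠ 0)
    (hYM : ∀ y ∈ Y, ∀ m ∈ M, y * m * y⁻¹ ∈ M) : ¬ LocNil M := by
  intro hLN
  by_cases hfg : Group.FG G
  · exact fg_case h hfg x hM hY hYM hLN
  · exact inf_case h hfg x hM hY hYM hLN

end H64.HP
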