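import Pool.Agent.H64.HP.Plot

/-!
Engel arguments in torsion-free groups: the centralizer of a power of an element.
-/

set_option autoImplicit false

open scoped commutatorElement

namespace H64.HP

/-- iterated commutators -/
def en {Q : Type*} [Group Q] (x q : Q) : ℕ → Q
  | 0 => q
  | k + 1 => ⁅x, en x q k⁆

theorem en_map {Q P : Type*} [Group Q] [Group P] (f : Q →* P) (x q : Q) (k : ℕ) :
    f (en x q k) = en (f x) (f q) k := by
  induction k with
  | zero => rfl
  | succ k ih =>
    show f ⁅x, en x q k⁆ = ⁅f x, en (f x) (f q) k⁆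
    rw [map_commutatorElement, ih]

theorem engel0 {Q : Type*} [Group Q] {x q : Q} {n : ℕ} (hx : Commute (x ^ n) q) {N : ℕ}
    (hN : en x q N = 1) (hiso : ∀ k, en x q (k + 1) ^ n = 1 → en x q (k + 1) = 1) :
    Commute x q := by
  have h1 : ∀ k, Commute (x ^ n) (en x q k) := by
    intro k
    induction k with
    | zero => exact hx
    | succ k ih =>
      show Commute (x ^ n) ⁅x, en x q k⁆
      have hxx : Commute (x ^ n) x := (Commute.refl x).pow_left n
      rw [commutatorElement_def]
      exact ((hxx.mul_right ih).mul_right hxx.inv_right).mul_right ih.inv_right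
  have h2 : ∀ k, Commute x (en x q k) → Commute x q := by
    intro k
    induction k with
    | zero => exact id
    | succ k ih =>
      intro h
      refine ih ?_
      have h3 : Commute ⁅x, en x q k⁆ x := h.symm
      have h4 := H64.BA.pow_comm h3 n
      rw [commutatorElement_eq_one_iff_commute.2 (h1 k)] at h4
      exact commutatorElement_eq_one_iff_commute.1 (hiso k h4.symm)
  refine h2 N ?_
  rw [hN]
  exact Commute.one_right x

theorem engel {Γ : Type*} [Group Γ] (Z : Subgroup Γ) [Z.Normal] {x q : Γ} {n : ℕ}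
    (hx : ⁅x ^ n, q⁆ ∈ Z) {N : ℕ} (hN : en x q N = 1)
    (hiso : ∀ k, en x q (k + 1) ^ n ∈ Z → en x q (k + 1) ∈ Z) : ⁅x, q⁆ ∈ Z := by
  have hm : ∀ k, ((en x q k : Γ) : Γ ⧸ Z) = en (x : Γ ⧸ Z) (q : Γ ⧸ Z) k :=
    fun k => en_map (QuotientGroup.mk' Z) x q k
  have h1 : Commute (x : Γ ⧸ Z) (q : Γ ⧸ Z) := by
    refine engel0 (n := n) ?_ (N := N) ?_ ?_
    · rw [← commutatorElement_eq_one_iff_commute]
      rw [← QuotientGroup.eq_one_iff] at hx
      exact hx
    · rw [← hm, hN]
      rfl
    · intro k hk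
      rw [← hm] at hk ⊢
      rw [QuotientGroup.eq_one_iff]
      refine hiso k ?_
      rw [← QuotientGroup.eq_one_iff]
      exact hk
  rw [← commutatorElement_eq_one_iff_commute] at h1
  rw [← QuotientGroup.eq_one_iff]
  exact h1

theorem en_lcs {Q : Type*} [Group Q] {F : Subgroup Q} {x q : Q} (hx : x ∈ F) (hq : ⁅x, q⁆ ∈ F)
    (k : ℕ) : en x q (k + 1) ∈ F.lowerCentralSeries k := by
  induction k with
  | zero => exact hq
  | succ k ih =>
    rw [Subgroup.lowerCentralSeries_succ, Subgroup.commutator_comm]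
    exact Subgroup.commutator_mem_commutator hx ih

theorem en_one {Q : Type*} [Group Q] {X : Subgroup Q} (hX : LocNil X) {x q : Q} (hx : x ∈ X)
    (hq : ⁅x, q⁆ ∈ X) : ∃ N, en x q N = 1 := by
  have hF : (Subgroup.closure {x, ⁅x, q⁆}).FG :=
    (Subgroup.fg_iff _).2 ⟨{x, ⁅x, q⁆}, rfl, Set.toFinite _⟩
  obtain ⟨n, hn⟩ := hX (Subgroup.closure {x, ⁅x, q⁆}) (by
    rw [Subgroup.closure_le]
    rintro z (rfl | hz)
    · exact hx
    · rw [Set.mem_singleton_iff.1 hz]
      exact hq) hF
  have h1 := en_lcs (F := Subgroup.closure {x, ⁅x, q⁆}) (x := x) (q := q)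
    (Subgroup.subset_closure (Or.inl rfl)) (Subgroup.subset_closure (Or.inr rfl)) n
  rw [hn] at h1
  exact ⟨n + 1, Subgroup.mem_bot.1 h1⟩

theorem en_mem {Q : Type*} [Group Q] {X : Subgroup Q} {x q : Q}
    (hx : ∀ z ∈ X, ⁅x, z⁆ ∈ X) (hq : ⁅x, q⁆ ∈ X) (k : ℕ) : en x q (k + 1) ∈ X := by
  induction k with
  | zero => exact hq
  | succ k ih => exact hx _ ih

variable {G : Type*} [Group G]

theorem comm_memL {X : Subgroup G} {x z : G} (hx : ∀ r ∈ X, x * r * x⁻¹ ∈ X) (hz : z ∈ X) :
    ⁅x, z⁆ ∈ X := by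
  rw [commutatorElement_def]
  exact mul_mem (hx z hz) (inv_mem hz)

theorem comm_memR {X : Subgroup G} {x z : G} (hx : ∀ r ∈ X, x * r * x⁻¹ ∈ X) (hz : z ∈ X) :
    ⁅z, x⁆ ∈ X := by
  rw [commutatorElement_def]
  have : z * x * z⁻¹ * x⁻¹ = z * (x * z⁻¹ * x⁻¹) := by group
  rw [this]
  exact mul_mem hz (hx _ (inv_mem hz))

/-- The terms of the upper central series of `Γ` are isolated relative to a locally nilpotent
subgroup which `Γ` normalizes. -/
theorem iso (tf : ∀ (g : G) (n : ℕ), n ≠ 0 → g ^ n = 1 → g = 1) {R : Subgroup G} (hR : LocNil R)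
    (Γ : Subgroup G) (hΓ : ∀ k ∈ Γ, ∀ r ∈ R, k * r * k⁻¹ ∈ R) (j : ℕ) :
    ∀ (r : Γ) (n : ℕ), n ≠ 0 → (r : G) ∈ R → r ^ n ∈ Subgroup.upperCentralSeries Γ j →
      r ∈ Subgroup.upperCentralSeries Γ j := by
  induction j with
  | zero =>
    intro r n hn _ h
    rw [Subgroup.upperCentralSeries_zero, Subgroup.mem_bot] at h ⊢
    exact Subtype.ext (tf r n hn (congrArg Subtype.val h))
  | succ j ih =>
    intro r n hn hr h
    rw [Subgroup.mem_upperCentralSeries_succ_iff] at h ⊢
    intro q
    have hq : ⁅(r : G), (q : G)⁆ ∈ R := comm_memR (hΓ q q.2) hr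
    obtain ⟨N, hN⟩ := en_one hR hr hq
    have hc : ∀ k, ((en r q k : Γ) : G) = en (r : G) (q : G) k :=
      fun k => en_map Γ.subtype r q k
    refine engel (Subgroup.upperCentralSeries Γ j) (n := n) (h q) (N := N)
      (Subtype.ext ((hc N).trans hN)) fun k hk => ih _ n hn ?_ hk
    rw [hc]
    exact en_mem (fun z hz => comm_memL (hΓ r r.2) hz) hq k

/-- The main claim. -/
theorem claim (tf : ∀ (g : G) (n : ℕ), n ≠ 0 → g ^ n = 1 → g = 1) {R : Subgroup G}
    (hR : LocNil R) (Γ : Subgroup G) (hΓ : ∀ k ∈ Γ, ∀ r ∈ R, k * r * k⁻¹ ∈ R) {ι : Type*}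
    [Finite ι] (a : ι → Γ) (M : ι → Subgroup G) (hM : ∀ i, LocNil (M i)) (m : ι → ℕ)
    (hm : ∀ i, m i ≠ 0) (ha : ∀ i, (a i : G) ∈ M i)
    (hRM : ∀ i, ∀ r ∈ R, ∀ z ∈ M i, r * z * r⁻¹ ∈ M i)
    (ham : ∀ i, (a i : G) ^ m i ∈ R) (y : Γ) (hy : (y : G) ∈ R)
    (hgen : Subgroup.closure (Set.range a ∪ {y}) = ⊤) :
    ∃ c, y ∈ Subgroup.upperCentralSeries Γ c := by
  let F : Subgroup Γ := Subgroup.closure (Set.range (fun i => a i ^ m i) ∪ {y})
  have hFR : ∀ w ∈ F, (w : G) ∈ R := by
    intro w hw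
    have : F ≤ R.comap Γ.subtype := by
      rw [Subgroup.closure_le]
      rintro z (⟨i, rfl⟩ | hz)
      · exact ham i
      · rw [Set.mem_singleton_iff.1 hz]
        exact hy
    exact this hw
  have hFfg : (F.map Γ.subtype).FG :=
    (Subgroup.fg_iff _).2 ⟨_, (MonoidHom.map_closure _ _).symm,
      ((Set.finite_range _).union (Set.finite_singleton y)).image _⟩
  obtain ⟨c, hc⟩ := hR (F.map Γ.subtype) (by
    rintro _ ⟨w, hw, rfl⟩
    exact hFR w hw) hFfg
  have hc' : F.lowerCentralSeries c = ⊥ := by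
    rw [← Subgroup.map_lowerCentralSeries] at hc
    rw [Subgroup.map_eq_bot_iff_of_injective _ Γ.subtype_injective] at hc
    exact hc
  have key : ∀ j, j ≤ c → F.lowerCentralSeries (c - j) ≤ Subgroup.upperCentralSeries Γ j := by
    intro j
    induction j with
    | zero =>
      intro _
      rw [Nat.sub_zero, hc']
      exact bot_le
    | succ j ih =>
      intro hj
      have ih := ih (by omega)
      intro w hw
      have hwF : w ∈ F := by
        have : F.lowerCentralSeries (c - (j + 1)) ≤ F.lowerCentralSeries 0 :=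
          Subgroup.lowerCentralSeries_antitone F (Nat.zero_le _)
        exact this hw
      have hwR := hFR w hwF
      have e : c - j = c - (j + 1) + 1 := by omega
      have hcf : ∀ f ∈ F, ⁅f, w⁆ ∈ Subgroup.upperCentralSeries Γ j := by
        intro f hf
        refine ih ?_
        rw [e, Subgroup.lowerCentralSeries_succ, Subgroup.commutator_comm]
        exact Subgroup.commutator_mem_commutator hf hw
      -- the elements which commute with `w` modulo the term
      have hcent : ∀ q : Γ, ⁅q, w⁆ ∈ Subgroup.upperCentralSeries Γ j := by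
        let C : Subgroup Γ := (Subgroup.centralizer
          {((w : Γ) : Γ ⧸ Subgroup.upperCentralSeries Γ j)}).comap
            (QuotientGroup.mk' (Subgroup.upperCentralSeries Γ j))
        have hC : ∀ q : Γ, q ∈ C ↔ ⁅q, w⁆ ∈ Subgroup.upperCentralSeries Γ j := by
          intro q
          rw [Subgroup.mem_comap, Subgroup.mem_centralizer_singleton_iff,
            ← QuotientGroup.eq_one_iff]
          have : ((⁅q, w⁆ : Γ) : Γ ⧸ Subgroup.upperCentralSeries Γ j) =
            ⁅(q : Γ ⧸ Subgroup.upperCentralSeries Γ j), (w : Γ ⧸ Subgroup.upperCentralSeries Γ j)⁆ :=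
            rfl
          rw [this, commutatorElement_eq_one_iff_mul_comm]
          rfl
        have : (⊤ : Subgroup Γ) ≤ C := by
          rw [← hgen, Subgroup.closure_le]
          rintro q (⟨i, rfl⟩ | hq)
          · rw [SetLike.mem_coe, hC]
            have hc1 : ∀ k, ((en (a i) w k : Γ) : G) = en (a i : G) (w : G) k :=
              fun k => en_map Γ.subtype (a i) w k
            have h1 : ⁅(a i : G), (w : G)⁆ ∈ M i := comm_memR (hRM i w hwR) (ha i)
            have h2 : ⁅(a i : G), (w : G)⁆ ∈ R := comm_memL (hΓ _ (a i).2) hwR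
            obtain ⟨N, hN⟩ := en_one (hM i) (ha i) h1
            refine engel (Subgroup.upperCentralSeries Γ j) (n := m i) (hcf _ ?_) (N := N)
              (Subtype.ext ((hc1 N).trans hN)) fun k hk =>
                iso tf hR Γ hΓ j _ (m i) (hm i) ?_ hk
            · exact Subgroup.subset_closure (Or.inl ⟨i, rfl⟩)
            · rw [hc1]
              exact en_mem (fun z hz => comm_memL (hΓ _ (a i).2) hz) h2 k
          · rw [SetLike.mem_coe, hC, Set.mem_singleton_iff.1 hq]
            exact hcf _ (Subgroup.subset_closure (Or.inr rfl))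
        intro q
        exact (hC q).1 (this trivial)
      rw [Subgroup.mem_upperCentralSeries_succ_iff]
      intro q
      have h3 := inv_mem (hcent q)
      rwa [commutatorElement_inv] at h3
  refine ⟨c, key c le_rfl ?_⟩
  rw [Nat.sub_self]
  exact Subgroup.subset_closure (Or.inr rfl)

end H64.HP
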