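import Pool.Agent.H64.HP.Subn

/-!
Torsion-free barely transitive groups: the theorem on subnormal subgroups, for the notion of
subnormality of Mathlib.
-/

set_option autoImplicit false

namespace H64.HP

open H47.BT (Bare)
open MulAction

variable {G Ω : Type*} [Group G] [MulAction G Ω]

theorem exists_sn {x : Ω} {K : Subgroup G} (hK : K.relIndex (stabilizer G x) ≠ 0)
    {S : Subgroup K} (hS : S.IsSubnormal) : ∃ d, Sn x d (S.map K.subtype) := by
  induction hS with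
  | top =>
    refine ⟨0, ?_⟩
    rw [← MonoidHom.range_eq_map, Subgroup.range_subtype]
    exact hK
  | step S S' h_le _ hN ih =>
    obtain ⟨d, hd⟩ := ih
    refine ⟨d + 1, S'.map K.subtype, hd, Subgroup.map_mono h_le, ?_⟩
    rintro _ ⟨y, hy, rfl⟩ _ ⟨m, hm, rfl⟩
    exact ⟨y * m * y⁻¹, hN.conj_mem ⟨m, h_le hm⟩ hm ⟨y, hy⟩, rfl⟩

theorem exists_sn' {x : Ω} {K M : Subgroup G} (hK : K.relIndex (stabilizer G x) ≠ 0)
    (hMK : M ≤ K) (hM : (M.subgroupOf K).IsSubnormal) : ∃ d, Sn x (d + 1) M := by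
  obtain ⟨d, hd⟩ := exists_sn hK hM
  rw [Subgroup.map_subgroupOf_eq_of_le hMK] at hd
  exact ⟨d, hd.succ⟩

theorem sn_solvable (h : Bare G Ω) {x : Ω} {d : ℕ} {M : Subgroup G} (hM : Sn x (d + 1) M)
    (hMb : M ≠ ⊥) : ¬ Group.IsSolvable M := by
  intro hs
  obtain ⟨A, h1, h2, h3, h4⟩ := exists_abelian hMb hs
  exact sn_locNil h (d + 1) A ⟨M, hM, h1, h4⟩ h2 (locNil_of_comm h3)

theorem sn_fg (h : Bare G Ω) {x : Ω} {d : ℕ} {M : Subgroup G} (hM : Sn x (d + 1) M)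
    (hMb : M ≠ ⊥) : ∃ F : Subgroup G, F ≤ M ∧ F.FG ∧ ¬ Group.IsNilpotent F := by
  have h1 := sn_locNil h d M hM hMb
  unfold LocNil at h1
  push Not at h1
  obtain ⟨F, hFM, hF, hFn⟩ := h1
  exact ⟨F, hFM, hF, fun hc => hFn ((Subgroup.isNilpotent_iff_lowerCentralSeries F).1 hc)⟩

end H64.HP
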