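import Pool.Agent.H64.BA.Nil

/-!
Fitting's theorem and the theorem of Hirsch and Plotkin on products of normal locally nilpotent
subgroups.
-/

set_option autoImplicit false

open scoped commutatorElement

namespace H64.HP

open H64.BA (comm_sup_le comm_sup_le')

variable {G : Type*} [Group G]

/-- nilpotent subgroups -/
def Nil (F : Subgroup G) : Prop := ∃ n, F.lowerCentralSeries n = ⊥

/-- locally nilpotent subgroups -/
def LocNil (X : Subgroup G) : Prop := ∀ F : Subgroup G, F ≤ X → F.FG → Nil F

theorem Nil.mono {F F' : Subgroup G} (h : Nil F) (hle : F' ≤ F) : Nil F' := by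
  obtain ⟨n, hn⟩ := h
  exact ⟨n, le_bot_iff.1 ((Subgroup.lowerCentralSeries_mono n hle).trans hn.le)⟩

theorem LocNil.mono {X X' : Subgroup G} (h : LocNil X) (hle : X' ≤ X) : LocNil X' :=
  fun F hF hfg => h F (hF.trans hle) hfg

theorem lcs_anti (F : Subgroup G) {m n : ℕ} (h : m ≤ n) :
    F.lowerCentralSeries n ≤ F.lowerCentralSeries m := Subgroup.lowerCentralSeries_antitone F h

theorem Nil.ge {F : Subgroup G} {n : ℕ} (h : F.lowerCentralSeries n = ⊥) {m : ℕ} (hm : n ≤ m) :
    F.lowerCentralSeries m = ⊥ := le_bot_iff.1 ((lcs_anti F hm).trans h.le)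

section Fitting

/-- the series of a normal subgroup, starting with the whole group -/
def A' (A : Subgroup G) (i : ℕ) : Subgroup G := if i = 0 then ⊤ else A.lowerCentralSeries (i - 1)

theorem A'_zero (A : Subgroup G) : A' A 0 = ⊤ := rfl

theorem A'_succ (A : Subgroup G) (i : ℕ) : A' A (i + 1) = A.lowerCentralSeries i := rfl

instance A'_normal (A : Subgroup G) [A.Normal] (i : ℕ) : (A' A i).Normal := by
  cases i with
  | zero => rw [A'_zero]; infer_instance
  | succ i => rw [A'_succ]; infer_instance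

theorem A'_comm (A : Subgroup G) [A.Normal] (i : ℕ) : ⁅A' A i, A⁆ ≤ A' A (i + 1) := by
  cases i with
  | zero =>
    rw [A'_succ, Subgroup.lowerCentralSeries_zero]
    exact Subgroup.commutator_le_right _ _
  | succ i =>
    rw [A'_succ, A'_succ, Subgroup.lowerCentralSeries_succ]

theorem sup_comm_le {ι : Type*} (E : ι → Subgroup G) (hn : ∀ i, (E i).Normal) {T X : Subgroup G}
    [X.Normal] (s : Finset ι) (h : ∀ i ∈ s, ⁅E i, T⁆ ≤ X) : (s.sup E).Normal ∧ ⁅s.sup E, T⁆ ≤ X := by
  classical
  induction s using Finset.induction_on with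
  | empty =>
    rw [Finset.sup_empty, Subgroup.commutator_bot_left]
    exact ⟨inferInstance, bot_le⟩
  | insert i s _ ih =>
    rw [Finset.sup_insert, sup_comm]
    have h1 := hn i
    have h2 := ih fun j hj => h j (Finset.mem_insert_of_mem hj)
    have h3 := h2.1
    exact ⟨inferInstance, comm_sup_le h2.2 (h i (Finset.mem_insert_self i s))⟩

/-- Fitting's theorem. -/
theorem fitting (A B : Subgroup G) [A.Normal] [B.Normal] (hA : Nil A) (hB : Nil B) :
    Nil (A ⊔ B) := by
  obtain ⟨a, ha⟩ := hA
  obtain ⟨b, hb⟩ := hB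
  let E : ℕ → ℕ → Subgroup G := fun n i => A' A i ⊓ A' B (n + 1 - i)
  let W : ℕ → Subgroup G := fun n => (Finset.range (n + 2)).sup (E n)
  have hE : ∀ n i, (E n i).Normal := fun n i => by
    show (A' A i ⊓ A' B (n + 1 - i)).Normal
    infer_instance
  have hWE : ∀ n i, i < n + 2 → E n i ≤ W n := fun n i hi =>
    Finset.le_sup (f := E n) (Finset.mem_range.2 hi)
  have hWn : ∀ n, (W n).Normal := fun n =>
    (sup_comm_le (X := ⊤) (T := ⊤) (E n) (hE n) (Finset.range (n + 2)) fun _ _ => le_top).1
  have h1 : ∀ n, (A ⊔ B).lowerCentralSeries n ≤ W n := by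
    intro n
    induction n with
    | zero =>
      rw [Subgroup.lowerCentralSeries_zero]
      refine sup_le ?_ ?_
      · have := hWE 0 1 (by omega)
        refine le_trans ?_ this
        show A ≤ A' A 1 ⊓ A' B 0
        rw [A'_zero, inf_top_eq]
        exact le_rfl
      · have := hWE 0 0 (by omega)
        refine le_trans ?_ this
        show B ≤ A' A 0 ⊓ A' B 1
        rw [A'_zero, top_inf_eq]
        exact le_rfl
    | succ n ih =>
      rw [Subgroup.lowerCentralSeries_succ]
      refine (Subgroup.commutator_mono ih le_rfl).trans ?_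
      have := hWn (n + 1)
      refine (sup_comm_le (E n) (hE n) (Finset.range (n + 2)) fun i hi => ?_).2
      have hi := Finset.mem_range.1 hi
      refine comm_sup_le' ?_ ?_
      · refine le_trans ?_ (hWE (n + 1) (i + 1) (by omega))
        show ⁅A' A i ⊓ A' B (n + 1 - i), A⁆ ≤ A' A (i + 1) ⊓ A' B (n + 1 + 1 - (i + 1))
        have e : n + 1 + 1 - (i + 1) = n + 1 - i := by omega
        rw [e]
        refine le_inf ?_ ?_
        · exact (Subgroup.commutator_mono inf_le_left le_rfl).trans (A'_comm A i)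
        · exact (Subgroup.commutator_mono inf_le_right le_rfl).trans
            (Subgroup.commutator_le_left _ _)
      · refine le_trans ?_ (hWE (n + 1) i (by omega))
        show ⁅A' A i ⊓ A' B (n + 1 - i), B⁆ ≤ A' A i ⊓ A' B (n + 1 + 1 - i)
        have e : n + 1 + 1 - i = (n + 1 - i) + 1 := by omega
        rw [e]
        refine le_inf ?_ ?_
        · exact (Subgroup.commutator_mono inf_le_left le_rfl).trans
            (Subgroup.commutator_le_left _ _)
        · exact (Subgroup.commutator_mono inf_le_right le_rfl).trans (A'_comm B _)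
  refine ⟨a + b + 1, le_bot_iff.1 ((h1 _).trans ?_)⟩
  refine Finset.sup_le fun i hi => ?_
  have hi := Finset.mem_range.1 hi
  show A' A i ⊓ A' B (a + b + 1 + 1 - i) ≤ ⊥
  rcases Nat.lt_or_ge a i with h2 | h2
  · obtain ⟨j, rfl⟩ : ∃ j, i = j + 1 := ⟨i - 1, by omega⟩
    rw [A'_succ, Nil.ge ha (by omega)]
    exact inf_le_left
  · obtain ⟨j, hj⟩ : ∃ j, a + b + 1 + 1 - i = j + 1 := ⟨a + b + 1 - i, by omega⟩
    rw [hj, A'_succ, Nil.ge hb (by omega)]
    exact inf_le_right

/-- Fitting's theorem for subgroups which normalize each other. -/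
theorem fitting' (A B : Subgroup G) (hAB : A ≤ Subgroup.normalizer (B : Set G))
    (hBA : B ≤ Subgroup.normalizer (A : Set G)) (hA : Nil A) (hB : Nil B) : Nil (A ⊔ B) := by
  let J : Subgroup G := A ⊔ B
  have hn : ∀ C : Subgroup G, C ≤ J → J ≤ Subgroup.normalizer (C : Set G) →
      (C.subgroupOf J).Normal := by
    intro C hC hJ
    refine ⟨fun c hc j => ?_⟩
    rw [Subgroup.mem_subgroupOf] at hc ⊢
    exact (Subgroup.mem_normalizer_iff.1 (hJ j.2) c).1 hc
  have hA' := hn A le_sup_left (sup_le Subgroup.le_normalizer hBA)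
  have hB' := hn B le_sup_right (sup_le hAB Subgroup.le_normalizer)
  have hnil : ∀ C : Subgroup G, C ≤ J → Nil C → Nil (C.subgroupOf J) := by
    rintro C hC ⟨n, hn⟩
    refine ⟨n, ?_⟩
    have h1 := Subgroup.map_lowerCentralSeries (C.subgroupOf J) J.subtype n
    rw [Subgroup.map_subgroupOf_eq_of_le hC, hn, Subgroup.map_eq_bot_iff, Subgroup.ker_subtype] at h1
    exact le_bot_iff.1 h1
  obtain ⟨n, h1⟩ := fitting _ _ (hnil A le_sup_left hA) (hnil B le_sup_right hB)
  refine ⟨n, ?_⟩
  have h2 : (A.subgroupOf J ⊔ B.subgroupOf J).map J.subtype = A ⊔ B := by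
    rw [Subgroup.map_sup, Subgroup.map_subgroupOf_eq_of_le le_sup_left,
      Subgroup.map_subgroupOf_eq_of_le le_sup_right]
  rw [← h2, ← Subgroup.map_lowerCentralSeries, h1, Subgroup.map_bot]

end Fitting

end H64.HP
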