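import Pool.Agent.H64.HP.Fit

/-!
The theorem of Hirsch and Plotkin: products of normal locally nilpotent subgroups are locally
nilpotent.
-/

set_option autoImplicit false

open scoped commutatorElement

namespace H64.HP

variable {G : Type*} [Group G]

/-- iterated commutators with elements of `T` -/
def Lv (T S : Set G) : ℕ → Set G
  | 0 => S
  | n + 1 => {z | ∃ x ∈ T, ∃ w ∈ Lv T S n, z = ⁅x, w⁆}

theorem Lv_finite {T S : Set G} (hT : T.Finite) (hS : S.Finite) (n : ℕ) : (Lv T S n).Finite := by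
  induction n with
  | zero => exact hS
  | succ n ih =>
    refine ((hT.prod ih).image fun p : G × G => ⁅p.1, p.2⁆).subset ?_
    rintro z ⟨x, hx, w, hw, rfl⟩
    exact ⟨(x, w), ⟨hx, hw⟩, rfl⟩

theorem Lv_lcs {T S : Set G} (n : ℕ) :
    Lv T S n ⊆ (Subgroup.closure (T ∪ S)).lowerCentralSeries n := by
  induction n with
  | zero =>
    intro z hz
    rw [Subgroup.lowerCentralSeries_zero]
    exact Subgroup.subset_closure (Or.inr hz)
  | succ n ih =>
    rintro z ⟨x, hx, w, hw, rfl⟩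
    rw [Subgroup.lowerCentralSeries_succ, Subgroup.commutator_comm]
    exact Subgroup.commutator_mem_commutator (Subgroup.subset_closure (Or.inl hx)) (ih hw)

/-- a finitely generated subgroup containing `S` which is invariant under conjugation by `T` -/
theorem inv_fg {T S : Set G} (hT : T.Finite) (hS : S.Finite)
    (hnil : Nil (Subgroup.closure (T ∪ S))) : ∃ W : Set G, W.Finite ∧ S ⊆ W ∧
      (∀ Z : Subgroup G, S ⊆ Z → (∀ x ∈ T, ∀ z ∈ Z, x * z * x⁻¹ ∈ Z) → W ⊆ Z) ∧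
      ∀ x ∈ T, ∀ w ∈ Subgroup.closure W, x * w * x⁻¹ ∈ Subgroup.closure W := by
  obtain ⟨n, hn⟩ := hnil
  refine ⟨⋃ k ∈ Finset.range (n + 1), Lv T S k, ?_, ?_, ?_, ?_⟩
  · exact Set.Finite.biUnion (Finset.finite_toSet _) fun k _ => Lv_finite hT hS k
  · exact Set.subset_biUnion_of_mem (u := fun k => Lv T S k) (Finset.mem_coe.2
      (Finset.mem_range.2 (by omega) : 0 ∈ Finset.range (n + 1)))
  · intro Z hSZ hTZ
    have h1 : ∀ k, Lv T S k ⊆ Z := by
      intro k
      induction k with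
      | zero => exact hSZ
      | succ k ih =>
        rintro z ⟨x, hx, w, hw, rfl⟩
        rw [commutatorElement_def]
        exact mul_mem (hTZ x hx w (ih hw)) (inv_mem (ih hw))
    exact Set.iUnion₂_subset fun k _ => h1 k
  · intro x hx w hw
    induction hw using Subgroup.closure_induction with
    | mem w hw =>
      rw [Set.mem_iUnion₂] at hw
      obtain ⟨k, hk, hw⟩ := hw
      have hk := Finset.mem_range.1 hk
      have hwc : w ∈ Subgroup.closure (⋃ k ∈ Finset.range (n + 1), Lv T S k) :=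
        Subgroup.subset_closure (Set.mem_biUnion (Finset.mem_coe.2 (Finset.mem_range.2 hk)) hw)
      have h1 : ⁅x, w⁆ ∈ Lv T S (k + 1) := ⟨x, hx, w, hw, rfl⟩
      have e : x * w * x⁻¹ = ⁅x, w⁆ * w := by
        rw [commutatorElement_def]
        group
      rw [e]
      refine mul_mem ?_ hwc
      rcases Nat.lt_or_ge k n with h2 | h2
      · exact Subgroup.subset_closure (Set.mem_biUnion
          (Finset.mem_coe.2 (Finset.mem_range.2 (by omega : k + 1 < n + 1))) h1)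
      · have h3 := Lv_lcs (k + 1) h1
        rw [Nil.ge hn (by omega : n ≤ k + 1)] at h3
        rw [Subgroup.mem_bot.1 h3]
        exact one_mem _
    | one =>
      have : x * 1 * x⁻¹ = 1 := by group
      rw [this]
      exact one_mem _
    | mul a b _ _ ha hb =>
      have : x * (a * b) * x⁻¹ = (x * a * x⁻¹) * (x * b * x⁻¹) := by group
      rw [this]
      exact mul_mem ha hb
    | inv a _ ha =>
      have : x * a⁻¹ * x⁻¹ = (x * a * x⁻¹)⁻¹ := by group
      rw [this]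
      exact inv_mem ha

/-- conjugation maps a closure into a subgroup if it does so with the generators -/
theorem conj_closure {S : Set G} {Z : Subgroup G} {x : G} (h : ∀ s ∈ S, x * s * x⁻¹ ∈ Z) :
    ∀ s ∈ Subgroup.closure S, x * s * x⁻¹ ∈ Z := by
  intro s hs
  induction hs using Subgroup.closure_induction with
  | mem w hw => exact h w hw
  | one =>
    have : x * 1 * x⁻¹ = 1 := by group
    rw [this]
    exact one_mem _
  | mul a b _ _ ha hb =>
    have : x * (a * b) * x⁻¹ = (x * a * x⁻¹) * (x * b * x⁻¹) := by group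
    rw [this]
    exact mul_mem ha hb
  | inv a _ ha =>
    have : x * a⁻¹ * x⁻¹ = (x * a * x⁻¹)⁻¹ := by group
    rw [this]
    exact inv_mem ha

theorem mem_norm {Z : Subgroup G} {x : G} (h1 : ∀ s ∈ Z, x * s * x⁻¹ ∈ Z)
    (h2 : ∀ s ∈ Z, x⁻¹ * s * x ∈ Z) : x ∈ Subgroup.normalizer (Z : Set G) := by
  rw [Subgroup.mem_normalizer_iff]
  intro s
  refine ⟨fun hs => h1 s hs, fun hs => ?_⟩
  have := h2 _ hs
  have e : x⁻¹ * (x * s * x⁻¹) * x = s := by group
  rwa [e] at this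

/-- **Hirsch-Plotkin** for two subgroups which normalize each other. -/
theorem plotkin {X Y : Subgroup G} (hXY : ∀ x ∈ X, ∀ y ∈ Y, x * y * x⁻¹ ∈ Y)
    (hYX : ∀ y ∈ Y, ∀ x ∈ X, y * x * y⁻¹ ∈ X) (hX : LocNil X) (hY : LocNil Y) :
    LocNil (X ⊔ Y) := by
  intro F hF hfg
  -- products
  have hmem : ∀ s ∈ X ⊔ Y, ∃ a ∈ X, ∃ b ∈ Y, a * b = s := by
    intro s hs
    have h1 : X ≤ Subgroup.normalizer (Y : Set G) := fun x hx => mem_norm (hXY x hx) fun s hs => by
      have := hXY x⁻¹ (inv_mem hx) s hs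
      rwa [inv_inv] at this
    rw [Subgroup.sup_eq_closure_mul] at hs
    induction hs using Subgroup.closure_induction with
    | mem s hs =>
      obtain ⟨a, ha, b, hb, rfl⟩ := hs
      exact ⟨a, ha, b, hb, rfl⟩
    | one => exact ⟨1, one_mem _, 1, one_mem _, by group⟩
    | mul s t _ _ hs ht =>
      obtain ⟨a, ha, b, hb, rfl⟩ := hs
      obtain ⟨c, hc, d, hd, rfl⟩ := ht
      refine ⟨a * (b * c * b⁻¹), mul_mem ha (hYX b hb c hc), b * d, mul_mem hb hd, by group⟩
    | inv s _ hs =>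
      obtain ⟨a, ha, b, hb, rfl⟩ := hs
      refine ⟨b⁻¹ * a⁻¹ * b, ?_, b⁻¹, inv_mem hb, by group⟩
      have := hYX b⁻¹ (inv_mem hb) a⁻¹ (inv_mem ha)
      rwa [inv_inv] at this
  obtain ⟨S0, hS0, hS0f⟩ := (Subgroup.fg_iff F).1 hfg
  have hS0X : ∀ s : G, ∃ p : G × G, s ∈ S0 → p.1 ∈ X ∧ p.2 ∈ Y ∧ p.1 * p.2 = s := by
    intro s
    by_cases hs : s ∈ S0
    · obtain ⟨a, ha, b, hb, hab⟩ := hmem s (hF (hS0 ▸ Subgroup.subset_closure hs))
      exact ⟨(a, b), fun _ => ⟨ha, hb, hab⟩⟩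
    · exact ⟨1, fun h => absurd h hs⟩
  choose p hp using hS0X
  let TX : Set G := (fun s => (p s).1) '' S0 ∪ (fun s => (p s).1⁻¹) '' S0
  let TY : Set G := (fun s => (p s).2) '' S0 ∪ (fun s => (p s).2⁻¹) '' S0
  have hTXf : TX.Finite := (hS0f.image _).union (hS0f.image _)
  have hTYf : TY.Finite := (hS0f.image _).union (hS0f.image _)
  have hTXX : TX ⊆ X := by
    rintro _ (⟨s, hs, rfl⟩ | ⟨s, hs, rfl⟩)
    · exact (hp s hs).1
    · exact inv_mem (hp s hs).1
  have hTYY : TY ⊆ Y := by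
    rintro _ (⟨s, hs, rfl⟩ | ⟨s, hs, rfl⟩)
    · exact (hp s hs).2.1
    · exact inv_mem (hp s hs).2.1
  have hTXi : ∀ a ∈ TX, a⁻¹ ∈ TX := by
    rintro _ (⟨s, hs, rfl⟩ | ⟨s, hs, rfl⟩)
    · exact Or.inr ⟨s, hs, rfl⟩
    · exact Or.inl ⟨s, hs, by simp⟩
  have hTYi : ∀ a ∈ TY, a⁻¹ ∈ TY := by
    rintro _ (⟨s, hs, rfl⟩ | ⟨s, hs, rfl⟩)
    · exact Or.inr ⟨s, hs, rfl⟩
    · exact Or.inl ⟨s, hs, by simp⟩
  have hFle : F ≤ Subgroup.closure TX ⊔ Subgroup.closure TY := by
    rw [← hS0, Subgroup.closure_le]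
    intro s hs
    have h1 := (hp s hs).2.2
    rw [← h1]
    exact mul_mem (le_sup_left (a := Subgroup.closure TX)
      (Subgroup.subset_closure (Or.inl ⟨s, hs, rfl⟩)))
      (le_sup_right (b := Subgroup.closure TY) (Subgroup.subset_closure (Or.inl ⟨s, hs, rfl⟩)))
  -- the commutators
  let S : Set G := (fun q : G × G => ⁅q.1, q.2⁆) '' (TX ×ˢ TY)
  have hSf : S.Finite := (hTXf.prod hTYf).image _
  have hSX : S ⊆ X := by
    rintro _ ⟨⟨a, b⟩, ⟨ha, hb⟩, rfl⟩
    have : ⁅a, b⁆ = a * (b * a⁻¹ * b⁻¹) := by rw [commutatorElement_def]; group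
    show ⁅a, b⁆ ∈ X
    rw [this]
    exact mul_mem (hTXX ha) (hYX b (hTYY hb) a⁻¹ (inv_mem (hTXX ha)))
  have hSY : S ⊆ Y := by
    rintro _ ⟨⟨a, b⟩, ⟨ha, hb⟩, rfl⟩
    show ⁅a, b⁆ ∈ Y
    rw [commutatorElement_def]
    exact mul_mem (hXY a (hTXX ha) b (hTYY hb)) (inv_mem (hTYY hb))
  obtain ⟨W1, hW1f, hSW1, hW1m, hW1i⟩ := inv_fg hTXf hSf (hX _ ((Subgroup.closure_le _).2
    (Set.union_subset hTXX hSX)) ((Subgroup.fg_iff _).2 ⟨_, rfl, hTXf.union hSf⟩))
  have hW1X : W1 ⊆ X := hW1m X hSX fun x hx z hz => mul_mem (mul_mem (hTXX hx) hz) (inv_mem (hTXX hx))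
  have hW1Y : W1 ⊆ Y := hW1m Y hSY fun x hx z hz => hXY x (hTXX hx) z hz
  obtain ⟨W2, hW2f, hSW2, hW2m, hW2i⟩ := inv_fg hTYf hW1f (hY _ ((Subgroup.closure_le _).2
    (Set.union_subset hTYY hW1Y)) ((Subgroup.fg_iff _).2 ⟨_, rfl, hTYf.union hW1f⟩))
  have hW2X : W2 ⊆ X := hW2m X hW1X fun x hx z hz => hYX x (hTYY hx) z hz
  have hW2Y : W2 ⊆ Y := hW2m Y hW1Y fun x hx z hz => mul_mem (mul_mem (hTYY hx) hz) (inv_mem (hTYY hx))
  let D : Subgroup G := Subgroup.closure W2
  have hSD : S ⊆ D := (hSW1.trans hSW2).trans Subgroup.subset_closure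
  -- `D` is invariant under `TX`
  have hDX : ∀ a ∈ TX, ∀ d ∈ D, a * d * a⁻¹ ∈ D := by
    let Z : Subgroup G :=
      { carrier := {z | z ∈ D ∧ ∀ a ∈ TX, a * z * a⁻¹ ∈ D}
        one_mem' := ⟨one_mem _, fun a _ => by
          have : a * 1 * a⁻¹ = 1 := by group
          rw [this]
          exact one_mem _⟩
        mul_mem' := by
          rintro y z ⟨hy, hy'⟩ ⟨hz, hz'⟩
          refine ⟨mul_mem hy hz, fun a ha => ?_⟩
          have : a * (y * z) * a⁻¹ = (a * y * a⁻¹) * (a * z * a⁻¹) := by group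
          rw [this]
          exact mul_mem (hy' a ha) (hz' a ha)
        inv_mem' := by
          rintro y ⟨hy, hy'⟩
          refine ⟨inv_mem hy, fun a ha => ?_⟩
          have : a * y⁻¹ * a⁻¹ = (a * y * a⁻¹)⁻¹ := by group
          rw [this]
          exact inv_mem (hy' a ha) }
    have hWZ : W2 ⊆ Z := by
      refine hW2m Z ?_ ?_
      · intro w hw
        refine ⟨Subgroup.subset_closure (hSW2 hw), fun a ha => ?_⟩
        have h1 := hW1i a ha w (Subgroup.subset_closure hw)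
        exact (Subgroup.closure_mono hSW2) h1
      · rintro b hb z ⟨hz, hz'⟩
        refine ⟨hW2i b hb z hz, fun a ha => ?_⟩
        have h1 := hW2i b hb _ (hz' a ha)
        have h2 : ⁅a, b⁆ ∈ D := hSD ⟨(a, b), ⟨ha, hb⟩, rfl⟩
        have e : a * (b * z * b⁻¹) * a⁻¹ = ⁅a, b⁆ * (b * (a * z * a⁻¹) * b⁻¹) * ⁅a, b⁆⁻¹ := by
          rw [commutatorElement_def]
          group
        rw [e]
        exact mul_mem (mul_mem h2 h1) (inv_mem h2)
    have hDZ : D ≤ Z := (Subgroup.closure_le _).2 hWZ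
    intro a ha d hd
    exact (hDZ hd).2 a ha
  -- the two nilpotent subgroups
  have hAX : Subgroup.closure (TX ∪ W2) ≤ X := (Subgroup.closure_le _).2 (Set.union_subset hTXX hW2X)
  have hBY : Subgroup.closure (TY ∪ W2) ≤ Y := (Subgroup.closure_le _).2 (Set.union_subset hTYY hW2Y)
  have hA := hX _ hAX ((Subgroup.fg_iff _).2 ⟨_, rfl, hTXf.union hW2f⟩)
  have hB := hY _ hBY ((Subgroup.fg_iff _).2 ⟨_, rfl, hTYf.union hW2f⟩)
  have hDA : D ≤ Subgroup.closure (TX ∪ W2) := Subgroup.closure_mono Set.subset_union_right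
  have hDB : D ≤ Subgroup.closure (TY ∪ W2) := Subgroup.closure_mono Set.subset_union_right
  have hcAB : ∀ a ∈ TX, ∀ s ∈ Subgroup.closure (TY ∪ W2), a * s * a⁻¹ ∈ Subgroup.closure (TY ∪ W2) := by
    intro a ha
    refine conj_closure ?_
    rintro s (hs | hs)
    · have e : a * s * a⁻¹ = ⁅a, s⁆ * s := by rw [commutatorElement_def]; group
      rw [e]
      exact mul_mem (hDB (hSD ⟨(a, s), ⟨ha, hs⟩, rfl⟩)) (Subgroup.subset_closure (Or.inl hs))
    · exact hDB (hDX a ha s (Subgroup.subset_closure hs))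
  have hcBA : ∀ b ∈ TY, ∀ s ∈ Subgroup.closure (TX ∪ W2), b * s * b⁻¹ ∈ Subgroup.closure (TX ∪ W2) := by
    intro b hb
    refine conj_closure ?_
    rintro s (hs | hs)
    · have e : b * s * b⁻¹ = ⁅s, b⁆⁻¹ * s := by rw [commutatorElement_def]; group
      rw [e]
      exact mul_mem (inv_mem (hDA (hSD ⟨(s, b), ⟨hs, hb⟩, rfl⟩))) (Subgroup.subset_closure (Or.inl hs))
    · exact hDA (hW2i b hb s (Subgroup.subset_closure hs))
  have hnAB : Subgroup.closure (TX ∪ W2) ≤ Subgroup.normalizer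
      ((Subgroup.closure (TY ∪ W2) : Subgroup G) : Set G) := by
    rw [Subgroup.closure_le]
    rintro a (ha | ha)
    · refine mem_norm (hcAB a ha) fun s hs => ?_
      have := hcAB a⁻¹ (hTXi a ha) s hs
      rwa [inv_inv] at this
    · exact Subgroup.le_normalizer (Subgroup.subset_closure (Or.inr ha))
  have hnBA : Subgroup.closure (TY ∪ W2) ≤ Subgroup.normalizer
      ((Subgroup.closure (TX ∪ W2) : Subgroup G) : Set G) := by
    rw [Subgroup.closure_le]
    rintro a (ha | ha)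
    · refine mem_norm (hcBA a ha) fun s hs => ?_
      have := hcBA a⁻¹ (hTYi a ha) s hs
      rwa [inv_inv] at this
    · exact Subgroup.le_normalizer (Subgroup.subset_closure (Or.inr ha))
  refine (fitting' _ _ hnAB hnBA hA hB).mono (hFle.trans (sup_le_sup ?_ ?_))
  · exact Subgroup.closure_mono Set.subset_union_left
  · exact Subgroup.closure_mono Set.subset_union_left

/-- **Hirsch-Plotkin** for arbitrary families. -/
theorem plotkin_sup {ι : Type*} (E : ι → Subgroup G) {Y : Subgroup G} (hEY : ∀ i, E i ≤ Y)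
    (hYE : ∀ i, ∀ y ∈ Y, ∀ e ∈ E i, y * e * y⁻¹ ∈ E i) (hE : ∀ i, LocNil (E i)) :
    LocNil (⨆ i, E i) := by
  classical
  have hfin : ∀ s : Finset ι, LocNil (s.sup E) ∧ s.sup E ≤ Y ∧
      ∀ y ∈ Y, ∀ e ∈ s.sup E, y * e * y⁻¹ ∈ s.sup E := by
    intro s
    induction s using Finset.induction_on with
    | empty =>
      rw [Finset.sup_empty]
      refine ⟨fun F hF _ => ⟨0, ?_⟩, bot_le, fun y _ e he => ?_⟩
      · rw [Subgroup.lowerCentralSeries_zero]
        exact le_bot_iff.1 hF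
      · rw [Subgroup.mem_bot.1 he]
        have : y * 1 * y⁻¹ = 1 := by group
        rw [this]
        exact one_mem _
    | insert i s _ ih =>
      rw [Finset.sup_insert]
      obtain ⟨h1, h2, h3⟩ := ih
      refine ⟨plotkin (fun x hx y hy => h3 x (hEY i hx) y hy) (fun y hy x hx => hYE i y (h2 hy) x hx)
        (hE i) h1, sup_le (hEY i) h2, fun y hy => ?_⟩
      have h4 : E i ⊔ s.sup E = Subgroup.closure ((E i : Set G) ∪ (s.sup E : Subgroup G)) := by
        rw [Subgroup.closure_union, Subgroup.closure_eq, Subgroup.closure_eq]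
      rw [h4]
      refine conj_closure ?_
      rintro z (hz | hz)
      · exact Subgroup.subset_closure (Or.inl (hYE i y hy z hz))
      · exact Subgroup.subset_closure (Or.inr (h3 y hy z hz))
  intro F hF hfg
  obtain ⟨S, hS, hSf⟩ := (Subgroup.fg_iff F).1 hfg
  have hs : ∀ z ∈ ⨆ i, E i, ∃ s : Finset ι, z ∈ s.sup E := by
    intro z hz
    rw [Subgroup.iSup_eq_closure] at hz
    induction hz using Subgroup.closure_induction with
    | mem z hz =>
      obtain ⟨i, hi⟩ := Set.mem_iUnion.1 hz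
      exact ⟨{i}, by rwa [Finset.sup_singleton]⟩
    | one => exact ⟨∅, one_mem _⟩
    | mul a b _ _ ha hb =>
      obtain ⟨s, hs⟩ := ha
      obtain ⟨t, ht⟩ := hb
      exact ⟨s ∪ t, mul_mem
        ((Finset.sup_mono Finset.subset_union_left : s.sup E ≤ (s ∪ t).sup E) hs)
        ((Finset.sup_mono Finset.subset_union_right : t.sup E ≤ (s ∪ t).sup E) ht)⟩
    | inv a _ ha =>
      obtain ⟨s, hs⟩ := ha
      exact ⟨s, inv_mem hs⟩
  have hs' : ∀ z : G, ∃ s : Finset ι, z ∈ S → z ∈ s.sup E := by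
    intro z
    by_cases hz : z ∈ S
    · obtain ⟨s, hs⟩ := hs z (hF (hS ▸ Subgroup.subset_closure hz))
      exact ⟨s, fun _ => hs⟩
    · exact ⟨∅, fun h => absurd h hz⟩
  choose f hf using hs'
  refine (hfin (hSf.toFinset.biUnion f)).1 F ?_ hfg
  rw [← hS, Subgroup.closure_le]
  intro z hz
  exact (Finset.sup_mono (Finset.subset_biUnion_of_mem f (hSf.mem_toFinset.2 hz)) :
    (f z).sup E ≤ (hSf.toFinset.biUnion f).sup E) (hf z hz)

end H64.HP
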