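import Pool.Agent.H64.HP.LN

/-!
Torsion-free barely transitive groups: no nontrivial subnormal subgroup of a subgroup of finite index of a
point stabilizer is locally nilpotent or soluble.
-/

set_option autoImplicit false

open scoped commutatorElement

namespace H64.HP

open H47.BT (Bare)
open H64.BC (cj mem_cj)
open MulAction

/-- The conjugates of a locally nilpotent normal subgroup of a normal subgroup. -/
theorem push {G : Type*} [Group G] {X Y E : Subgroup G} (hXY : ∀ x ∈ X, ∀ y ∈ Y, x * y * x⁻¹ ∈ Y)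
    (hYX : Y ≤ X) (hEY : E ≤ Y) (hYE : ∀ y ∈ Y, ∀ e ∈ E, y * e * y⁻¹ ∈ E) (hE : LocNil E)
    (hEb : E ≠ ⊥) : ∃ R : Subgroup G, R ≤ X ∧ R ≠ ⊥ ∧ LocNil R ∧ ∀ x ∈ X, ∀ r ∈ R, x * r * x⁻¹ ∈ R := by
  have hcY : ∀ k : X, cj (k : G) E ≤ Y := by
    intro k s hs
    rw [mem_cj] at hs
    have h1 := hXY k k.2 _ (hEY hs)
    have e : (k : G) * ((k : G)⁻¹ * s * k) * (k : G)⁻¹ = s := by group
    rwa [e] at h1
  refine ⟨⨆ k : X, cj (k : G) E, iSup_le fun k => (hcY k).trans hYX, ?_, ?_, ?_⟩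
  · intro hc
    apply hEb
    rw [eq_bot_iff, ← hc]
    intro s hs
    refine Subgroup.mem_iSup_of_mem (1 : X) ?_
    rw [Subgroup.coe_one, H64.BC.cj_one]
    exact hs
  · refine plotkin_sup (fun k : X => cj (k : G) E) (Y := Y) hcY ?_
      fun t => LocNil.cj hE (t : G)
    intro t y hy e he
    rw [mem_cj] at he ⊢
    have h2 := hXY (t : G)⁻¹ (inv_mem t.2) y hy
    rw [inv_inv] at h2
    have h1 := hYE _ h2 _ he
    have e1 : (t : G)⁻¹ * y * t * ((t : G)⁻¹ * e * t) * ((t : G)⁻¹ * y * t)⁻¹ =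
      (t : G)⁻¹ * (y * e * y⁻¹) * t := by group
    rwa [e1] at h1
  · intro k hk r hr
    rw [Subgroup.iSup_eq_closure] at hr
    refine conj_closure ?_ r hr
    intro s hs
    obtain ⟨t, ht⟩ := Set.mem_iUnion.1 hs
    have ht : s ∈ cj (t : G) E := ht
    refine Subgroup.mem_iSup_of_mem (⟨k * t, mul_mem hk t.2⟩ : X) ?_
    rw [mem_cj] at ht ⊢
    have e : (k * (t : G))⁻¹ * (k * s * k⁻¹) * (k * (t : G)) = (t : G)⁻¹ * s * t := by group
    exact e ▸ ht

variable {G Ω : Type*} [Group G] [MulAction G Ω]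

/-- **Locally nilpotent subnormal subgroups.** -/
theorem sub_locNil (h : Bare G Ω) (x : Ω) (n : ℕ) : ∀ (C : ℕ → Subgroup G) (E : Subgroup G),
    (C 0).relIndex (stabilizer G x) ≠ 0 →
    (∀ i < n, C (i + 1) ≤ C i ∧ ∀ c ∈ C i, ∀ m ∈ C (i + 1), c * m * c⁻¹ ∈ C (i + 1)) →
    E ≤ C n → (∀ c ∈ C n, ∀ e ∈ E, c * e * c⁻¹ ∈ E) → E ≠ ⊥ → ¬ LocNil E := by
  induction n with
  | zero =>
    intro C E h0 _ _ hn hE hL
    exact not_locNil h x hE h0 hn hL
  | succ n ih =>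
    intro C E h0 hC hEC hn hE hL
    obtain ⟨h1, h2⟩ := hC n (Nat.lt_succ_self n)
    obtain ⟨R, hR1, hR2, hR3, hR4⟩ := push h2 h1 hEC hn hL hE
    exact ih C R h0 (fun i hi => hC i (hi.trans (Nat.lt_succ_self n))) hR1 hR4 hR2 hR3

theorem locNil_of_comm {G : Type*} [Group G] {A : Subgroup G}
    (hA : ∀ a ∈ A, ∀ b ∈ A, a * b = b * a) : LocNil A := by
  intro F hF _
  refine ⟨1, ?_⟩
  rw [Subgroup.lowerCentralSeries_succ, Subgroup.lowerCentralSeries_zero,
    Subgroup.commutator_eq_bot_iff_le_centralizer]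
  intro a ha
  rw [Subgroup.mem_centralizer_iff]
  intro b hb
  exact hA b (hF hb) a (hF ha)

/-- a nontrivial soluble subgroup contains a nontrivial abelian subgroup which it normalizes -/
theorem exists_abelian {G : Type*} [Group G] {M : Subgroup G} (hM : M ≠ ⊥)
    (hs : Group.IsSolvable M) : ∃ A : Subgroup G, A ≤ M ∧ A ≠ ⊥ ∧
      (∀ a ∈ A, ∀ b ∈ A, a * b = b * a) ∧ ∀ m ∈ M, ∀ a ∈ A, m * a * m⁻¹ ∈ A := by
  obtain ⟨n, hn0⟩ := hs.solvable
  have key : ∀ n, derivedSeries M n = ⊥ → ∃ A : Subgroup G, A ≤ M ∧ A ≠ ⊥ ∧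
      (∀ a ∈ A, ∀ b ∈ A, a * b = b * a) ∧ ∀ m ∈ M, ∀ a ∈ A, m * a * m⁻¹ ∈ A := by
    intro n
    induction n with
    | zero =>
      intro hc
      exfalso
      apply hM
      rw [derivedSeries_zero] at hc
      rw [Subgroup.eq_bot_iff_forall]
      intro m hm
      have : (⟨m, hm⟩ : M) ∈ (⊤ : Subgroup M) := Subgroup.mem_top _
      rw [hc, Subgroup.mem_bot] at this
      exact congrArg Subtype.val this
    | succ n ih =>
      intro hc
      by_cases hb : derivedSeries M n = ⊥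
      · exact ih hb
      refine ⟨(derivedSeries M n).map M.subtype, ?_, ?_, ?_, ?_⟩
      · rintro _ ⟨a, _, rfl⟩
        exact a.2
      · intro h0
        rw [Subgroup.map_eq_bot_iff, Subgroup.ker_subtype] at h0
        exact hb (le_bot_iff.1 h0)
      · rintro a ⟨a, ha, rfl⟩ b ⟨b, hb', rfl⟩
        rw [derivedSeries_succ, Subgroup.commutator_eq_bot_iff_le_centralizer] at hc
        have h1 := Subgroup.mem_centralizer_iff.1 (hc hb') a ha
        exact congrArg Subtype.val h1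
      · rintro m hm _ ⟨a, ha, rfl⟩
        exact ⟨⟨m, hm⟩ * a * (⟨m, hm⟩ : M)⁻¹,
          (derivedSeries_normal M n).conj_mem a ha ⟨m, hm⟩, rfl⟩
  exact key n hn0

/-- **Soluble subnormal subgroups.** -/
theorem sub_solvable (h : Bare G Ω) (x : Ω) (n : ℕ) (C : ℕ → Subgroup G)
    (h0 : (C 0).relIndex (stabilizer G x) ≠ 0)
    (hC : ∀ i < n, C (i + 1) ≤ C i ∧ ∀ c ∈ C i, ∀ m ∈ C (i + 1), c * m * c⁻¹ ∈ C (i + 1))
    (hn : C n ≠ ⊥) : ¬ Group.IsSolvable (C n) := by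
  intro hs
  obtain ⟨A, h1, h2, h3, h4⟩ := exists_abelian hn hs
  exact sub_locNil h x n C A h0 hC h1 h4 h2 (locNil_of_comm h3)

end H64.HP
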