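import Pool.Agent.H64.HP.Sub
import Pool.Agent.H64.HP.Free

/-!
Torsion-free barely transitive groups: subnormal subgroups of subgroups of finite index of a point
stabilizer have trivial centralizers and intersect each other nontrivially.
-/

set_option autoImplicit false

open scoped commutatorElement

namespace H64.HP

open H47.BT (Bare exists_ne_one)
open H64.BC (cj mem_cj cj_mono cj_inv_cj Cz mem_Cz Cz_anti Nrm)
open H64.BM (B mem_B)
open MulAction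

/-- subnormal subgroups of defect at most `d` of subgroups of finite index -/
def Sn {G Ω : Type*} [Group G] [MulAction G Ω] (x : Ω) : ℕ → Subgroup G → Prop
  | 0, X => X.relIndex (stabilizer G x) ≠ 0
  | d + 1, X => ∃ N, Sn x d N ∧ X ≤ N ∧ Nrm N X

variable {G Ω : Type*} [Group G] [MulAction G Ω]

theorem Sn.succ {x : Ω} {d : ℕ} {X : Subgroup G} (h : Sn x d X) : Sn x (d + 1) X :=
  ⟨X, h, le_rfl, Nrm.self X⟩

theorem Sn.le {x : Ω} {d e : ℕ} {X : Subgroup G} (h : Sn x d X) (hde : d ≤ e) : Sn x e X := by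
  induction e, hde using Nat.le_induction with
  | base => exact h
  | succ e _ ih => exact ih.succ

theorem Sn.inf {x : Ω} {d : ℕ} : ∀ {X Y : Subgroup G}, Sn x d X → Sn x d Y → Sn x d (X ⊓ Y) := by
  induction d with
  | zero => exact fun h1 h2 => Subgroup.relIndex_inf_ne_zero h1 h2
  | succ d ih =>
    rintro X Y ⟨N, h1, h2, h3⟩ ⟨N', h1', h2', h3'⟩
    exact ⟨N ⊓ N', ih h1 h1', inf_le_inf h2 h2', h3.inf h3'⟩

theorem Sn.cj (h : Bare G Ω) {x : Ω} {d : ℕ} (g : G) :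
    ∀ {X : Subgroup G}, Sn x d X → Sn x d (H64.BC.cj g X) := by
  induction d with
  | zero => exact fun h1 => h.conj x g h1
  | succ d ih =>
    rintro X ⟨N, h1, h2, h3⟩
    exact ⟨_, ih h1, cj_mono g h2, h3.cj g⟩

theorem Sn.top (x : Ω) (d : ℕ) : Sn x d (⊤ : Subgroup G) := by
  have h0 : Sn x 0 (⊤ : Subgroup G) := by
    show (⊤ : Subgroup G).relIndex (stabilizer G x) ≠ 0
    rw [Subgroup.relIndex_top_left]
    exact one_ne_zero
  exact h0.le (Nat.zero_le d)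

/-- trivial centralizers at level `d` -/
def Zp (G : Type*) {Ω : Type*} [Group G] [MulAction G Ω] (x : Ω) (d : ℕ) : Prop :=
  ∀ F : Subgroup G, Sn x d F → F ≠ ⊥ → Cz F = ⊥

/-- nontrivial intersections at level `d` -/
def Ip (G : Type*) {Ω : Type*} [Group G] [MulAction G Ω] (x : Ω) (d : ℕ) : Prop :=
  ∀ F M : Subgroup G, Sn x d F → Sn x d M → F ≠ ⊥ → M ≠ ⊥ → F ⊓ M ≠ ⊥

theorem comm_dis {F M A B : Subgroup G} (hd : F ⊓ M = ⊥) (hA : A ≤ F) (hAM : Nrm A M) (hB : B ≤ M)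
    (hBF : Nrm B F) : A ≤ Cz B := by
  intro a ha
  rw [mem_Cz]
  intro b hb
  have h1 : a * b * a⁻¹ * b⁻¹ ∈ F ⊓ M := by
    refine Subgroup.mem_inf.2 ⟨?_, mul_mem (hAM a ha b (hB hb)) (inv_mem (hB hb))⟩
    have := mul_mem (hA ha) (hBF b hb a⁻¹ (inv_mem (hA ha)))
    have e : a * (b * a⁻¹ * b⁻¹) = a * b * a⁻¹ * b⁻¹ := by group
    rwa [e] at this
  rw [hd] at h1
  have h2 := Subgroup.mem_bot.1 h1
  rw [← commutatorElement_def] at h2
  exact (commutatorElement_eq_one_iff_mul_comm.1 h2).symm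

theorem ne_bot_mono {A B : Subgroup G} (h : A ≠ ⊥) (hle : A ≤ B) : B ≠ ⊥ := by
  rintro rfl
  exact h (le_bot_iff.1 hle)

theorem Ep (h : Bare G Ω) {x : Ω} {d : ℕ} (hZ : Zp G x d) (hI : Ip G x d) {F : Subgroup G}
    (hF : Sn x (d + 1) F) (hFb : F ≠ ⊥) (b : ℕ) : b ≤ d → ∀ M : Subgroup G, Sn x b M → M ≠ ⊥ →
      F ⊓ M ≠ ⊥ := by
  obtain ⟨N, hN, hFN, hNF⟩ := hF
  induction b with
  | zero =>
    intro _ M hM hMb hc
    by_cases hFt : F = ⊤
    · rw [hFt, top_inf_eq] at hc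
      exact hMb hc
    obtain ⟨a, ha, ha1⟩ := exists_ne_one hFb
    obtain ⟨n, hn, han⟩ := exists_pow (Subgroup.relIndex_ne_zero_trans hM (h.rel hFt x)) ha
    have h1 : a ^ n ∈ F ⊓ M := ⟨pow_mem ha n, han⟩
    rw [hc] at h1
    exact ha1 (h.pw hn (Subgroup.mem_bot.1 h1))
  | succ b ih =>
    rintro hb M hM hMb hc
    obtain ⟨M1, hM1, hMM1, hM1M⟩ := id hM
    have h1 := ih (by omega) M1 hM1 (ne_bot_mono hMb hMM1)
    have h2 : M ⊓ N ≠ ⊥ := hI M N (hM.le hb) hN hMb (ne_bot_mono hFb hFN)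
    have h3 := hZ (M ⊓ N) ((hM.le hb).inf hN) h2
    have h4 : F ⊓ M1 ≤ Cz (M ⊓ N) := comm_dis hc inf_le_left (hM1M.mono inf_le_right) inf_le_left
      (hNF.mono inf_le_right)
    rw [h3] at h4
    exact h1 (le_bot_iff.1 h4)

theorem open_ne_bot (h : Bare G Ω) {x : Ω} {L : Subgroup G}
    (hL : L.relIndex (stabilizer G x) ≠ 0) : L ≠ ⊥ := by
  rintro rfl
  obtain ⟨g, hg⟩ := h.exists_ne
  have h2 := h.open_cz x hL
  have h3 : g ∈ Cz (⊥ : Subgroup G) := by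
    rw [mem_Cz]
    intro y hy
    rw [Subgroup.mem_bot.1 hy, one_mul, mul_one]
  have h4 : g ∈ (⊥ : Subgroup G) := by
    rw [← h2]
    exact h3
  exact hg (Subgroup.mem_bot.1 h4)

/-- **Topological transitivity.** -/
theorem tt (h : Bare G Ω) {x : Ω} {e : ℕ} (hZ : Zp G x (e + 1)) (hI : Ip G x (e + 1))
    {F F' : Subgroup G} (hF : Sn x (e + 2) F) (hF' : Sn x (e + 2) F') (hFb : F ≠ ⊥)
    (hFb' : F' ≠ ⊥) {L : Subgroup G} (hL : L.relIndex (stabilizer G x) ≠ 0) :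
    ∃ l ∈ L, F ⊓ cj l F' ≠ ⊥ := by
  by_contra hcon
  push Not at hcon
  obtain ⟨N, hN, hFN, hNF⟩ := id hF
  obtain ⟨N', hN', hFN', hNF'⟩ := id hF'
  obtain ⟨N1, hN1, hNN1, hN1N⟩ := id hN
  obtain ⟨N1', hN1', hNN1', hN1N'⟩ := id hN'
  have hL0 : Sn x 0 L := hL
  obtain ⟨Λ, hΛ, hΛb, hΛN1, hΛN1', hΛL⟩ : ∃ Λ : Subgroup G, Sn x e Λ ∧ Λ ≠ ⊥ ∧ Λ ≤ N1 ∧
      Λ ≤ N1' ∧ Λ ≤ L :=
    ⟨N1 ⊓ N1' ⊓ L, (hN1.inf hN1').inf (hL0.le (Nat.zero_le e)),
      hI _ _ (hN1.succ.inf hN1'.succ) (hL0.le (Nat.zero_le _))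
        (hI _ _ hN1.succ hN1'.succ (ne_bot_mono (ne_bot_mono hFb hFN) hNN1)
          (ne_bot_mono (ne_bot_mono hFb' hFN') hNN1')) (open_ne_bot h hL),
      inf_le_left.trans inf_le_left, inf_le_left.trans inf_le_right, inf_le_right⟩
  have hE := Ep h hZ hI hF hFb (e + 1) le_rfl
  have hE' := Ep h hZ hI hF' hFb' (e + 1) le_rfl
  have hNb := ne_bot_mono hFb hFN
  have hNb' := ne_bot_mono hFb' hFN'
  -- the subgroup generated by the conjugates
  obtain ⟨J, hJ1, hJ2, hJ3⟩ : ∃ J : Subgroup G, Nrm Λ J ∧ F' ⊓ N ≤ J ∧ F ⊓ N' ≤ Cz J := by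
    refine ⟨⨆ l : Λ, cj (l : G) (F' ⊓ N), ?_, ?_, ?_⟩
    · intro k hk r hr
      rw [Subgroup.iSup_eq_closure] at hr
      refine conj_closure ?_ r hr
      intro s hs
      obtain ⟨t, ht⟩ := Set.mem_iUnion.1 hs
      have ht : s ∈ cj (t : G) (F' ⊓ N) := ht
      refine Subgroup.mem_iSup_of_mem (⟨k * t, mul_mem hk t.2⟩ : Λ) ?_
      rw [mem_cj] at ht ⊢
      have e : (k * (t : G))⁻¹ * (k * s * k⁻¹) * (k * (t : G)) = (t : G)⁻¹ * s * t := by group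
      exact e ▸ ht
    · intro s hs
      refine Subgroup.mem_iSup_of_mem (1 : Λ) ?_
      rw [Subgroup.coe_one, H64.BC.cj_one]
      exact hs
    · intro f hf
      rw [mem_Cz]
      have key : ∀ l : Λ, cj (l : G) (F' ⊓ N) ≤ Subgroup.centralizer {f} := by
        intro l
        have hd := hcon l (hΛL l.2)
        have hl1 : cj (l : G) N = N := hN1N.cj_eq (hΛN1 l.2)
        have hl2 : cj (l : G) N' = N' := hN1N'.cj_eq (hΛN1' l.2)
        have h1 : F ⊓ N' ≤ Cz (cj (l : G) (F' ⊓ N)) := by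
          refine comm_dis hd inf_le_left ?_ (cj_mono _ inf_le_left) ?_
          · have h2 := hNF'.cj (l : G)
            rw [hl2] at h2
            exact h2.mono inf_le_right
          · refine hNF.mono ?_
            rw [H64.BC.cj_inf, hl1]
            exact inf_le_right
        intro s hs
        rw [Subgroup.mem_centralizer_singleton_iff]
        exact mem_Cz.1 (h1 hf) s hs
      intro s hs
      have h2 := (iSup_le key) hs
      rw [Subgroup.mem_centralizer_singleton_iff] at h2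
      exact h2
  have hNΛ : N ⊓ Λ ≠ ⊥ := hI N Λ hN hΛ.succ hNb hΛb
  have h5 := hE' (N ⊓ Λ) (hN.inf hΛ.succ) hNΛ
  have h6 : J ⊓ Λ ≠ ⊥ := ne_bot_mono h5 (le_inf ((le_inf inf_le_left
    (inf_le_right.trans inf_le_left)).trans hJ2) (inf_le_right.trans inf_le_right))
  have h7 := hZ (J ⊓ Λ) ⟨Λ, hΛ, inf_le_right, fun a ha b hb =>
    ⟨hJ1 a ha b hb.1, mul_mem (mul_mem ha hb.2) (Subgroup.inv_mem _ ha)⟩⟩ h6
  have h8 : F ⊓ N' ≤ ⊥ := by
    rw [← h7]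
    exact hJ3.trans (Cz_anti inf_le_left)
  exact hE N' hN' hNb' (le_bot_iff.1 h8)

theorem sn_locNil (h : Bare G Ω) {x : Ω} (d : ℕ) : ∀ E : Subgroup G, Sn x (d + 1) E → E ≠ ⊥ →
    ¬ LocNil E := by
  induction d with
  | zero =>
    rintro E ⟨N, hN, _, hNE⟩ hE hL
    exact not_locNil h x hE hN hNE hL
  | succ d ih =>
    rintro E ⟨N, ⟨N1, hN1, hNN1, hN1N⟩, hEN, hNE⟩ hE hL
    obtain ⟨R, hR1, hR2, hR3, hR4⟩ := push hN1N hNN1 hEN hNE hL hE
    exact ih R ⟨N1, hN1, hR1, hR4⟩ hR2 hR3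

/-- the group with the action by conjugation -/
structure Cj (G : Type*) where
  v : G

theorem Cj.ext' {G : Type*} {a b : Cj G} (h : a.v = b.v) : a = b := by
  cases a
  cases b
  exact congrArg Cj.mk h

instance (G : Type*) [Group G] : MulAction G (Cj G) where
  smul g y := ⟨g * y.v * g⁻¹⟩
  one_smul y := by
    show (⟨1 * y.v * 1⁻¹⟩ : Cj G) = y
    exact Cj.ext' (by group)
  mul_smul a b y := by
    show (⟨a * b * y.v * (a * b)⁻¹⟩ : Cj G) = ⟨a * (b * y.v * b⁻¹) * a⁻¹⟩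
    exact Cj.ext' (by group)

theorem smul_v {G : Type*} [Group G] (g : G) (y : Cj G) : (g • y).v = g * y.v * g⁻¹ := rfl

/-- the intersection of finitely many conjugates -/
theorem exists_inf (h : Bare G Ω) {x : Ω} {d : ℕ} {V : Subgroup G} (hV : Sn x d V)
    (s : Finset G) : ∃ W : Subgroup G, Sn x d W ∧ ∀ y : G, y ∈ W ↔ ∀ a ∈ s, a * y * a⁻¹ ∈ V := by
  classical
  induction s using Finset.induction_on with
  | empty => exact ⟨⊤, Sn.top x d, fun y => by simp⟩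
  | insert b s _ ih =>
    obtain ⟨W, hW, hWs⟩ := ih
    refine ⟨H64.BC.cj b⁻¹ V ⊓ W, (hV.cj h b⁻¹).inf hW, fun y => ?_⟩
    rw [Subgroup.mem_inf, hWs, mem_cj, inv_inv]
    constructor
    · rintro ⟨h1, h2⟩ a ha
      rcases Finset.mem_insert.1 ha with rfl | ha
      · exact h1
      · exact h2 a ha
    · exact fun h1 => ⟨h1 b (Finset.mem_insert_self _ _),
        fun a ha => h1 a (Finset.mem_insert_of_mem ha)⟩

/-- **A nontrivial normal subgroup has trivial centralizer in the subgroup.** -/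
theorem ad (h : Bare G Ω) {x : Ω} {e : ℕ} (hZ : Zp G x (e + 1)) (hI : Ip G x (e + 1))
    {D N : Subgroup G} (hN : Sn x (e + 1) N) (hDN : D ≤ N) (hND : Nrm N D) (hD : D ≠ ⊥) :
    N ⊓ Cz D = ⊥ := by
  classical
  by_contra hC
  have hDs : Sn x (e + 2) D := ⟨N, hN, hDN, hND⟩
  have hCn : Nrm N (N ⊓ Cz D) := by
    have := (Nrm.self N).inf hND.cz
    rwa [inf_idem] at this
  have hCs : Sn x (e + 2) (N ⊓ Cz D) := ⟨N, hN, inf_le_left, hCn⟩
  have hDC : D ⊓ (N ⊓ Cz D) = ⊥ := by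
    by_contra hne
    refine sn_locNil h (e + 1) (D ⊓ (N ⊓ Cz D)) (hDs.inf hCs) hne (locNil_of_comm ?_)
    intro a ha b hb
    exact mem_Cz.1 hb.2.2 a ha.1
  have htop : (⊤ : Subgroup G).relIndex (stabilizer G x) ≠ 0 := Sn.top x 0
  obtain ⟨l, _, hl⟩ := tt h hZ hI hDs hCs hD hC htop
  obtain ⟨V, hVs, hVD, hVC, hVb⟩ : ∃ V : Subgroup G, Sn x (e + 2) V ∧ V ≤ D ∧
      V ≤ H64.BC.cj l (N ⊓ Cz D) ∧ V ≠ ⊥ :=
    ⟨_, hDs.inf (hCs.cj h l), inf_le_left, inf_le_right, hl⟩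
  obtain ⟨v0, hv0, hv01⟩ := exists_ne_one hVb
  obtain ⟨g, hg, hg1⟩ := exists_ne_one hC
  let U : Set (Cj G) := {y | y.v ∈ V ∧ y.v ≠ 1}
  have hU : ∀ y, y ∈ U ↔ y.v ∈ V ∧ y.v ≠ 1 := fun y => Iff.rfl
  refine free_abs (X := Cj G) h x U ?_ (t := l⁻¹) ?_ (y0 := ⟨v0⟩) ⟨hv0, hv01⟩ hg1 ?_
  · intro L hL s s' hs hs'
    obtain ⟨W, hW, hWs⟩ := exists_inf h hVs s
    obtain ⟨W', hW', hWs'⟩ := exists_inf h hVs s'
    have hne : ∀ (s : Finset G) (W : Subgroup G), (∀ y : G, y ∈ W ↔ ∀ a ∈ s, a * y * a⁻¹ ∈ V) →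
        (B U s : Set (Cj G)).Nonempty → W ≠ ⊥ := by
      rintro s W hW ⟨y, hy⟩ hc
      rw [mem_B] at hy
      by_cases hse : s.Nonempty
      · obtain ⟨a, ha⟩ := hse
        have h1 : y.v ∈ W := (hW y.v).2 fun a ha => (hy a ha).1
        rw [hc] at h1
        have h2 := (hy a ha).2
        rw [smul_v, Subgroup.mem_bot.1 h1] at h2
        apply h2
        group
      · obtain ⟨g, hg⟩ := h.exists_ne
        have h1 : g ∈ W := (hW g).2 fun a ha => absurd ⟨a, ha⟩ hse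
        rw [hc] at h1
        exact hg (Subgroup.mem_bot.1 h1)
    obtain ⟨k, hk, hkW⟩ := tt h hZ hI hW hW' (hne s W hWs hs) (hne s' W' hWs' hs') hL
    obtain ⟨w, hw, hw1⟩ := exists_ne_one hkW
    obtain ⟨hw2, hw3⟩ := Subgroup.mem_inf.1 hw
    rw [mem_cj] at hw3
    have hz1 : k⁻¹ * w * k ≠ 1 := by
      intro hc
      apply hw1
      have : w = k * (k⁻¹ * w * k) * k⁻¹ := by group
      rw [this, hc]
      group
    have hcj : ∀ a z : G, z ≠ 1 → a * z * a⁻¹ ≠ 1 := by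
      intro a z hz hc
      apply hz
      have : z = a⁻¹ * (a * z * a⁻¹) * a := by group
      rw [this, hc]
      group
    refine ⟨k, hk, ⟨k⁻¹ * w * k⟩, ?_, ?_⟩
    · rw [mem_B]
      intro a ha
      exact ⟨(hWs' _).1 hw3 a ha, hcj _ _ hz1⟩
    · have e1 : k • (⟨k⁻¹ * w * k⟩ : Cj G) = ⟨w⟩ := Cj.ext' (by
        rw [smul_v]
        show k * (k⁻¹ * w * k) * k⁻¹ = w
        group)
      rw [e1, mem_B]
      intro a ha
      exact ⟨(hWs _).1 hw2 a ha, hcj _ _ hw1⟩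
  · intro y hy hc
    rw [hU] at hy hc
    rw [smul_v, inv_inv] at hc
    have h1 := mem_cj.1 (hVC hy.1)
    have h2 : l⁻¹ * y.v * l ∈ D ⊓ (N ⊓ Cz D) := ⟨hVD hc.1, h1⟩
    rw [hDC] at h2
    exact hc.2 (Subgroup.mem_bot.1 h2)
  · intro y hy
    rw [hU] at hy
    apply Cj.ext'
    rw [smul_v, ← mem_Cz.1 hg.2 y.v (hVD hy.1)]
    group

theorem zstep (h : Bare G Ω) {x : Ω} {e : ℕ} (hZ : Zp G x (e + 1)) (hI : Ip G x (e + 1)) :
    Zp G x (e + 2) := by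
  rintro D ⟨N, hN, hDN, hND⟩ hD
  have hA := ad h hZ hI hN hDN hND hD
  rw [Subgroup.eq_bot_iff_forall]
  intro c hc
  have hNb := ne_bot_mono hD hDN
  have hN' : H64.BC.cj c⁻¹ N ≠ ⊥ := by
    intro h1
    apply hNb
    have := congrArg (H64.BC.cj c) h1
    rwa [H64.BC.cj_cj_inv, H64.BC.cj_bot] at this
  have h1 := hZ (N ⊓ H64.BC.cj c⁻¹ N) (hN.inf (hN.cj h c⁻¹)) (hI _ _ hN (hN.cj h c⁻¹) hNb hN')
  have h2 : c ∈ Cz (N ⊓ H64.BC.cj c⁻¹ N) := by
    rw [mem_Cz]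
    intro n hn
    obtain ⟨hn1, hn2⟩ := Subgroup.mem_inf.1 hn
    rw [mem_cj, inv_inv] at hn2
    have h3 : n⁻¹ * (c * n * c⁻¹) ∈ N ⊓ Cz D := by
      refine Subgroup.mem_inf.2 ⟨mul_mem (Subgroup.inv_mem _ hn1) hn2, ?_⟩
      rw [mem_Cz]
      intro d hd
      have h4 := mem_Cz.1 hc d hd
      have h5 := mem_Cz.1 hc _ (hND n hn1 d hd)
      have e1 : c⁻¹ * d * c = d := by
        rw [mul_assoc, h4]
        group
      have e2 : c * n * c⁻¹ * d = n * d * n⁻¹ * (c * n * c⁻¹) := by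
        calc c * n * c⁻¹ * d = c * n * (c⁻¹ * d * c) * c⁻¹ := by group
          _ = c * (n * d * n⁻¹) * n * c⁻¹ := by rw [e1]; group
          _ = (n * d * n⁻¹) * c * n * c⁻¹ := by rw [← h5]
          _ = n * d * n⁻¹ * (c * n * c⁻¹) := by group
      calc d * (n⁻¹ * (c * n * c⁻¹)) = n⁻¹ * (n * d * n⁻¹ * (c * n * c⁻¹)) := by group
        _ = n⁻¹ * (c * n * c⁻¹ * d) := by rw [e2]
        _ = n⁻¹ * (c * n * c⁻¹) * d := by group
    rw [hA] at h3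
    have h6 := Subgroup.mem_bot.1 h3
    have h7 : c * n * c⁻¹ = n := by
      have : c * n * c⁻¹ = n * (n⁻¹ * (c * n * c⁻¹)) := by group
      rw [this, h6, mul_one]
    calc n * c = c * n * c⁻¹ * c := by rw [h7]
      _ = c * n := by group
  rw [h1] at h2
  exact Subgroup.mem_bot.1 h2

theorem istep (h : Bare G Ω) {x : Ω} {d : ℕ} (hZ : Zp G x d) (hI : Ip G x d)
    (hZ' : Zp G x (d + 1)) : Ip G x (d + 1) := by
  intro F M hF hM hFb hMb hc
  obtain ⟨N, hN, hFN, hNF⟩ := id hF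
  obtain ⟨M1, hM1, hMM1, hM1M⟩ := id hM
  have h1 := Ep h hZ hI hF hFb d le_rfl M1 hM1 (ne_bot_mono hMb hMM1)
  have h2 := Ep h hZ hI hM hMb d le_rfl N hN (ne_bot_mono hFb hFN)
  have h3 := hZ' (M ⊓ N) (hM.inf hN.succ) h2
  have h4 : F ⊓ M1 ≤ Cz (M ⊓ N) := comm_dis hc inf_le_left (hM1M.mono inf_le_right) inf_le_left
    (hNF.mono inf_le_right)
  rw [h3] at h4
  exact h1 (le_bot_iff.1 h4)

theorem all (h : Bare G Ω) (x : Ω) (d : ℕ) : Zp G x (d + 1) ∧ Ip G x (d + 1) := by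
  induction d with
  | zero =>
    constructor
    · rintro F ⟨N, hN, _, hNF⟩ hF
      exact H64.BC.cz_bot h x hF hN hNF
    · rintro F M ⟨N, hN, _, hNF⟩ ⟨N', hN', _, hNM⟩ hF hM
      exact H64.BC.inf_ne_bot h x hF hM hN hN' hNF hNM
  | succ d ih =>
    have hZ := zstep h ih.1 ih.2
    exact ⟨hZ, istep h ih.1 ih.2 hZ⟩

end H64.HP
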